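import Pool.Agent.R441.RZ.Main

/-!
# Admissibility of the two-sided fixed points
-/

namespace Pool.Agent.R441.RZ

variable {k : ℕ} {σ : Subst k} {u : ℤ → Fin k} {a : ℤ → ℤ}

/-- the word read from `m`, of length `l` -/
def seg (u : ℤ → Fin k) (m : ℤ) (l : ℕ) : List (Fin k) := (List.range l).map fun j : ℕ => u (m + (j : ℤ))

theorem seg_add (u : ℤ → Fin k) (m : ℤ) (l l' : ℕ) :
    seg u m (l + l') = seg u m l ++ seg u (m + l) l' := by
  unfold seg
  rw [List.range_add, List.map_append, List.map_map]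
  congr 1
  apply List.map_congr_left
  intro j _
  simp only [Function.comp_apply]
  congr 1
  push_cast
  ring

theorem seg_one (u : ℤ → Fin k) (m : ℤ) : seg u m 1 = [u m] := by simp [seg]

theorem seg_block (h : Fixed σ u a) (n : ℤ) : seg u (a n) (σ (u n)).length = σ (u n) := by
  unfold seg
  apply List.ext_getElem
  · simp
  · intro j h1 h2
    simp only [List.getElem_map, List.getElem_range]
    exact h.get n j h2

theorem app_seg (h : Fixed σ u a) (m : ℤ) (l : ℕ) :
    a m ≤ a (m + l) ∧ app σ (seg u m l) = seg u (a m) (a (m + l) - a m).toNat := by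
  induction l with
  | zero => simp [seg, app]
  | succ l ih =>
    obtain ⟨h0, h1⟩ := ih
    have h2 := h.succ (m + l)
    rw [show m + ((l + 1 : ℕ) : ℤ) = m + l + 1 by push_cast; ring]
    refine ⟨by omega, ?_⟩
    rw [seg_add, app_append, h1, seg_one]
    have e1 : (a (m + l + 1) - a m).toNat = (a (m + l) - a m).toNat + (σ (u (m + l))).length := by
      omega
    rw [e1, seg_add]
    congr 1
    have e2 : a m + ((a (m + l) - a m).toNat : ℤ) = a (m + l) := by omega
    rw [e2, seg_block h]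
    simp [app]

theorem iter_seg (h : Fixed σ u a) (hne : ∀ i, σ i ≠ []) (N : ℕ) (m n : ℤ) (hmn : m ≤ n) :
    (app σ)^[N] (seg u m (n - m).toNat) = seg u (a^[N] m) (a^[N] n - a^[N] m).toNat := by
  induction N with
  | zero => simp
  | succ N ih =>
    rw [Function.iterate_succ_apply', ih, Function.iterate_succ_apply', Function.iterate_succ_apply']
    have hmono : StrictMono (a^[N]) := (h.mono hne).iterate N
    have h1 := hmono.monotone hmn
    obtain ⟨-, h2⟩ := app_seg h (a^[N] m) (a^[N] n - a^[N] m).toNat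
    have h3 : a^[N] m + ((a^[N] n - a^[N] m).toNat : ℤ) = a^[N] n := by omega
    rw [h2, h3]

theorem seg_infix (u : ℤ → Fin k) (m m' : ℤ) (l l' : ℕ) (h1 : m' ≤ m) (h2 : m + l ≤ m' + l') :
    seg u m l <:+: seg u m' l' := by
  obtain ⟨p, hp⟩ : ∃ p : ℕ, m = m' + p := ⟨(m - m').toNat, by omega⟩
  obtain ⟨q, hq⟩ : ∃ q : ℕ, l' = p + l + q := ⟨l' - p - l, by omega⟩
  subst hp hq
  refine ⟨seg u m' p, seg u (m' + (p + l : ℕ)) q, ?_⟩
  rw [seg_add, seg_add]

theorem infix_app {l l' : List (Fin k)} (h : l <:+: l') : app σ l <:+: app σ l' := by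
  obtain ⟨s, t, rfl⟩ := h
  exact ⟨app σ s, app σ t, by rw [app_append, app_append]⟩

theorem infix_iter {l l' : List (Fin k)} (h : l <:+: l') (N : ℕ) :
    (app σ)^[N] l <:+: (app σ)^[N] l' := by
  induction N with
  | zero => exact h
  | succ N ih =>
    rw [Function.iterate_succ_apply', Function.iterate_succ_apply']
    exact infix_app ih

theorem adm_σ₀ {u : ℤ → Fin 3} {a : ℤ → ℤ} (h : Fixed σ₀ u a) : Admissible σ₀ u := by
  intro m l
  -- a window `[a^N (-1), a^N 1)` containing `[m, m+l)`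
  have hlow : ∀ N : ℕ, a^[N] (-1) ≤ -1 - N := by
    intro N
    induction N with
    | zero => simp
    | succ N ih =>
      rw [Function.iterate_succ_apply']
      have := a_le h (a^[N] (-1)) (by omega)
      push_cast
      omega
  have hup : ∀ N : ℕ, 1 + N ≤ a^[N] 1 := by
    intro N
    induction N with
    | zero => simp
    | succ N ih =>
      rw [Function.iterate_succ_apply']
      have := a_ge h (a^[N] 1) (by omega)
      push_cast
      omega
  set N : ℕ := m.natAbs + l with hN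
  have h1 := hlow N
  have h2 := hup N
  refine ⟨N + 2, 0, ?_⟩
  have h3 : seg u m l <:+: seg u (a^[N] (-1)) (a^[N] 1 - a^[N] (-1)).toNat :=
    seg_infix u m _ l _ (by omega) (by omega)
  rw [← iter_seg h σ₀_ne N (-1) 1 (by norm_num)] at h3
  have h4 : seg u (-1) ((1:ℤ) - -1).toNat = [1, 0] := by
    simp [seg, List.range_succ, u_zero h, u_neg_one h]
  rw [h4] at h3
  refine h3.trans ?_
  have h5 : ([1, 0] : List (Fin 3)) <:+: (app σ₀)^[2] [0] := by decide
  have h6 := infix_iter (σ := σ₀) h5 N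
  rw [← Function.iterate_add_apply] at h6
  exact h6

theorem app_rev (l : List (Fin k)) : app (rev σ) l.reverse = (app σ l).reverse := by
  induction l with
  | nil => simp [app]
  | cons x l ih =>
    rw [List.reverse_cons, app_append, ih]
    simp [app, rev]

theorem iter_rev (N : ℕ) (l : List (Fin k)) :
    (app (rev σ))^[N] l.reverse = ((app σ)^[N] l).reverse := by
  induction N with
  | zero => rfl
  | succ N ih =>
    rw [Function.iterate_succ_apply', ih, Function.iterate_succ_apply', app_rev]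

theorem adm_rev (h : Admissible σ u) : Admissible (rev σ) (fun n => u (-n-1)) := by
  intro m l
  obtain ⟨N, i, hNi⟩ := h (-(m + l)) l
  refine ⟨N, i, ?_⟩
  have h1 : ((List.range l).map fun j : ℕ => u (-(m + (j : ℤ)) - 1)) =
      ((List.range l).map fun j : ℕ => u (-(m + (l:ℤ)) + (j : ℤ))).reverse := by
    apply List.ext_getElem
    · simp
    · intro j h1 h2
      simp only [List.length_map, List.length_range, List.getElem_map, List.getElem_range,
        List.getElem_reverse] at h1 h2 ⊢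
      congr 1
      omega
  rw [h1]
  have h2 := iter_rev (σ := σ) N [i]
  simp only [List.reverse_singleton] at h2
  have h3 : (fun w : List (Fin k) => w.flatMap (rev σ))^[N] [i] =
    ((fun w : List (Fin k) => w.flatMap σ)^[N] [i]).reverse := h2
  rw [h3, List.reverse_infix]
  exact hNi

theorem main_adm : ∃ (σ : Subst 3) (lam : ℝ), σ = ![[0, 2, 1], [0, 1], [0]] ∧
    UnimodIrredPisot σ lam ∧ IsCompl (Es σ lam) (Eu σ lam) ∧
    (∃ u, TwoSidedFixed σ u ∧ Admissible σ u) ∧
    (∃ v, TwoSidedFixed (rev σ) v ∧ Admissible (rev σ) v) ∧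
    ∀ u v, TwoSidedFixed σ u → TwoSidedFixed (rev σ) v →
      Rauzy σ lam u ∩ Rauzy (rev σ) lam v = {0} ∧
      dimBd σ lam (Rauzy σ lam u ∩ Rauzy (rev σ) lam v) = 0 ∧
      1 ≤ dimBd σ lam (Rauzy σ lam u) := by
  obtain ⟨lam, b, d, ⟨h1, h2⟩, ⟨h3, h4⟩, ⟨h5, h6⟩, h7, h8, h9⟩ := exists_roots
  have h : Roots lam b d := ⟨h1, h2, h3, h4, h5, h6, h7, h8, h9⟩
  obtain ⟨u0, hu0⟩ := exists_u
  obtain ⟨a0, ha0⟩ := twoSidedFixed_iff.1 hu0
  have had := adm_σ₀ ha0
  refine ⟨σ₀, lam, rfl, uip h, isCompl h, ⟨u0, hu0, had⟩,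
    ⟨_, twoSidedFixed_iff.2 ⟨_, ha0.rev⟩, adm_rev had⟩, ?_⟩
  intro u v hu hv
  obtain ⟨a, ha⟩ := twoSidedFixed_iff.1 hu
  obtain ⟨a', ha'⟩ := twoSidedFixed_iff.1 hv
  have hv' := ha'.rev
  rw [rev_rev] at hv'
  have hI := inter_eq h (isCompl h) ha hv'
  have hR : Rauzy σ₀ lam u ∩ Rauzy (rev σ₀) lam v =
      Subtype.val '' ({0} : Set (Es σ₀ lam)) := by
    rw [Rauzy_rev_eq, Rauzy_eq (isCompl h), Rauzy_eq (isCompl h),
      ← Set.image_inter Subtype.val_injective, hI]
  refine ⟨?_, ?_, ?_⟩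
  · rw [hR, Set.image_singleton]
    rfl
  · rw [hR, dimBd_eq]
    have : frontier ({0} : Set (Es σ₀ lam)) ⊆ {0} := isClosed_singleton.frontier_subset
    have h2 := dimH_mono this
    rw [dimH_singleton] at h2
    exact le_antisymm h2 (zero_le)
  · rw [Rauzy_eq (isCompl h), dimBd_eq]
    exact one_le_dimH h (isCompl h) ha

end Pool.Agent.R441.RZ
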