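import Mathlib

/-!
# Rauzy fractals of unimodular irreducible Pisot substitutions

Definitions, following the text of problem MP_7cf8a2_an.
-/

namespace Pool.Agent.R441.RZ

/-- A substitution on the alphabet `{1,…,k}`, which is here `Fin k`. -/
abbrev Subst (k : ℕ) := Fin k → List (Fin k)

/-- The incidence matrix: `m_{ij}` is the number of occurrences of `i` in `σ(j)`. -/
def inc {k : ℕ} (σ : Subst k) : Matrix (Fin k) (Fin k) ℤ :=
  Matrix.of fun i j => ((σ j).count i : ℤ)

/-- The reverse substitution: `σ̂(i)` is `σ(i)` read backwards. -/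
def rev {k : ℕ} (σ : Subst k) : Subst k := fun i => (σ i).reverse

/-- The incidence matrix over `ℝ`. -/
def Mr {k : ℕ} (σ : Subst k) : Matrix (Fin k) (Fin k) ℝ := (inc σ).map (fun x : ℤ => (x : ℝ))

/-- The incidence matrix over `ℂ`. -/
def Mc {k : ℕ} (σ : Subst k) : Matrix (Fin k) (Fin k) ℂ := (inc σ).map (fun x : ℤ => (x : ℂ))

/-- `σ` is a unimodular irreducible Pisot substitution with dominant eigenvalue `lam`:
the images of letters are nonempty words, `|det M| = 1`, the characteristic polynomial of `M` is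
irreducible over `ℚ`, `lam > 1` is an eigenvalue and all other (complex) eigenvalues have
modulus `< 1`. -/
structure UnimodIrredPisot {k : ℕ} (σ : Subst k) (lam : ℝ) : Prop where
  nonempty : ∀ i, σ i ≠ []
  unimodular : |(inc σ).det| = 1
  irred : Irreducible ((inc σ).map (fun x : ℤ => (x : ℚ))).charpoly
  root : (Mr σ).charpoly.IsRoot lam
  one_lt : 1 < lam
  pisot : ∀ z : ℂ, (Mc σ).charpoly.IsRoot z → z ≠ (lam : ℂ) → ‖z‖ < 1

/-- The Euclidean space `ℝ^k`. -/
abbrev E (k : ℕ) := EuclideanSpace ℝ (Fin k)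

/-- `E^u`: the eigenspace of `lam` (spanned by the vectors `v` with `M v = lam v`). -/
def Eu {k : ℕ} (σ : Subst k) (lam : ℝ) : Submodule ℝ (E k) :=
  Submodule.span ℝ {v | ∀ i, ∑ j, Mr σ i j * v j = lam * v i}

/-- `E^s`: spanned by the real vectors `v` which are sums of complex eigenvectors `w_z` of `M`
for eigenvalues `z ≠ lam`, that is, for Galois conjugates of `lam`. -/
def Es {k : ℕ} (σ : Subst k) (lam : ℝ) : Submodule ℝ (E k) :=
  Submodule.span ℝ {v | ∃ (s : Finset ℂ) (w : ℂ → Fin k → ℂ),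
    (∀ z ∈ s, z ≠ lam ∧ ∀ i, ∑ j, Mc σ i j * w z j = z * w z i) ∧
    ∀ i, (v i : ℂ) = ∑ z ∈ s, w z i}

/-- `u = (u_n)_{n ∈ ℤ}` is a two-sided fixed point of `σ`: cutting `u` at the positions
`a(n)`, `a(0) = 0`, one reads the word `σ(u_n)` from `a(n)` to `a(n+1)`. -/
def TwoSidedFixed {k : ℕ} (σ : Subst k) (u : ℤ → Fin k) : Prop :=
  ∃ a : ℤ → ℤ, a 0 = 0 ∧ (∀ n, a (n + 1) = a n + (σ (u n)).length) ∧
    ∀ n (j : ℕ) (hj : j < (σ (u n)).length), u (a n + j) = (σ (u n))[j]

/-- The basis vector `e_i`. -/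
noncomputable def e {k : ℕ} (i : Fin k) : E k := EuclideanSpace.single i 1

/-- The vertices of the broken line: `L_n = ∑_{i=0}^n e_{u_i}` for `n ≥ 0` and
`L_n = -∑_{i=n-1}^{-1} e_{u_i}` for `n < 0`. -/
noncomputable def L {k : ℕ} (u : ℤ → Fin k) (n : ℤ) : E k :=
  if 0 ≤ n then ∑ i ∈ Finset.Icc 0 n, e (u i) else -∑ i ∈ Finset.Icc (n - 1) (-1), e (u i)

/-- For a two-sided fixed point `u` of `σ`: the Rauzy fractal of `σ`, that is, the closure
of the set of the points `π(L_n)`, where `π(L_n)` is the point `x ∈ E^s` such that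
`L_n - x ∈ E^u`. -/
def Rauzy {k : ℕ} (σ : Subst k) (lam : ℝ) (u : ℤ → Fin k) : Set (E k) :=
  closure {x | x ∈ Es σ lam ∧ ∃ n : ℤ, L u n - x ∈ Eu σ lam}

/-- The Hausdorff dimension of the boundary of `A ⊆ E^s`, where the boundary is taken in the
space `E^s`. -/
noncomputable def dimBd {k : ℕ} (σ : Subst k) (lam : ℝ) (A : Set (E k)) : ENNReal :=
  dimH (frontier {x : Es σ lam | (x : E k) ∈ A})

/-- `u` belongs to the shift space of `σ`: every finite factor of `u` occurs in `σ^N(i)`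
for some `N` and some letter `i`. -/
def Admissible {k : ℕ} (σ : Subst k) (u : ℤ → Fin k) : Prop :=
  ∀ (m : ℤ) (l : ℕ), ∃ (N : ℕ) (i : Fin k),
    ((List.range l).map fun j : ℕ => u (m + (j : ℤ))) <:+: (fun w : List (Fin k) => w.flatMap σ)^[N] [i]

/-- The reverse substitution has the same incidence matrix. -/
theorem inc_rev {k : ℕ} (σ : Subst k) : inc (rev σ) = inc σ := by
  ext i j
  simp [inc, rev]

end Pool.Agent.R441.RZ
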