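import Pool.Agent.R441.RZ.Exist

/-!
# The substitution `1 → 132`, `2 → 12`, `3 → 1`: the broken line in coordinates
-/

namespace Pool.Agent.R441.RZ

/-- The substitution `1 → 132`, `2 → 12`, `3 → 1` (with letters `0, 1, 2` instead of `1, 2, 3`). -/
def σ₀ : Subst 3 := ![[0, 2, 1], [0, 1], [0]]

theorem σ₀_ne : ∀ i, σ₀ i ≠ [] := by decide

/-- left eigenvector for the root `x` -/
def yv (x : ℝ) : Fin 3 → ℝ := ![x - x ^ 2, -x, 1 - x]

theorem yv_eig {x : ℝ} (hx : x ^ 3 = 2 * x ^ 2 + x - 1) (i : Fin 3) :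
    ((σ₀ i).map (yv x)).sum = x * yv x i := by
  fin_cases i
  · simp [σ₀, yv]; linear_combination hx
  · simp [σ₀, yv]; ring
  · simp [σ₀, yv]; ring

/-- prefix values -/
theorem prefix_val (i : Fin 3) (j : ℕ) (hj : j < (σ₀ i).length) :
    (j = 0) ∨ (j = 1 ∧ ∀ x, (((σ₀ i).take j).map (yv x)).sum = x - x ^ 2) ∨
    (j = 2 ∧ ∀ x, (((σ₀ i).take j).map (yv x)).sum = 1 - x ^ 2) := by
  fin_cases i
  · simp only [σ₀, Fin.zero_eta, Matrix.cons_val_zero, List.length_cons, List.length_nil] at hj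
    interval_cases j
    · left; rfl
    · right; left; refine ⟨rfl, fun x => by simp [σ₀, yv]⟩
    · right; right; refine ⟨rfl, fun x => by simp [σ₀, yv]⟩
  · simp only [σ₀, Fin.mk_one, Matrix.cons_val_one, Matrix.cons_val_zero, List.length_cons,
      List.length_nil] at hj
    interval_cases j
    · left; rfl
    · right; left; refine ⟨rfl, fun x => by simp [σ₀, yv]⟩
  · simp only [σ₀, Fin.reduceFinMk, Matrix.cons_val, List.length_cons, List.length_nil] at hj
    interval_cases j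
    left; rfl

variable {u : ℤ → Fin 3} {a : ℤ → ℤ}

theorem u_zero (h : Fixed σ₀ u a) : u 0 = 0 := by
  have h1 := h.get 0 0 (List.length_pos_iff.2 (σ₀_ne _))
  rw [h.zero] at h1
  simp only [Nat.cast_zero, add_zero] at h1
  rw [h1]
  generalize u 0 = i
  revert i
  decide

theorem u_neg_one (h : Fixed σ₀ u a) : u (-1) = 1 := by
  have h0 := h.succ (-1)
  rw [show (-1:ℤ) + 1 = 0 by norm_num, h.zero] at h0
  have hl := List.length_pos_iff.2 (σ₀_ne (u (-1)))
  have h1 := h.get (-1) ((σ₀ (u (-1))).length - 1) (by omega)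
  rw [show a (-1) + (((σ₀ (u (-1))).length - 1 : ℕ) : ℤ) = -1 by omega] at h1
  have key : ∀ i : Fin 3, ∀ hl : (σ₀ i).length - 1 < (σ₀ i).length,
    i = (σ₀ i)[(σ₀ i).length - 1] → i = 1 := by decide
  exact key _ _ h1

theorem a_one (h : Fixed σ₀ u a) : a 1 = 3 := by
  have := h.succ 0
  rw [h.zero, u_zero h] at this
  simpa [σ₀] using this

theorem a_neg_one (h : Fixed σ₀ u a) : a (-1) = -2 := by
  have := h.succ (-1)
  rw [show (-1:ℤ) + 1 = 0 by norm_num, h.zero, u_neg_one h] at this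
  simp [σ₀] at this
  omega

theorem a_ge (h : Fixed σ₀ u a) (n : ℤ) (hn : 1 ≤ n) : n + 2 ≤ a n := by
  induction n, hn using Int.le_induction with
  | base => rw [a_one h]; norm_num
  | succ n hn ih =>
    have := h.mono σ₀_ne (show n < n + 1 by omega)
    omega

theorem a_le (h : Fixed σ₀ u a) (n : ℤ) (hn : n ≤ -1) : a n ≤ n - 1 := by
  induction n, hn using Int.le_induction_down with
  | base => rw [a_neg_one h]; norm_num
  | pred n hn ih =>
    have := h.mono σ₀_ne (show n - 1 < n by omega)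
    omega

/-- induction along the substitution -/
theorem ind (h : Fixed σ₀ u a) {P : ℤ → Prop} (h0 : P 0) (h1 : P (-1))
    (hs : ∀ m (j : ℕ), j < (σ₀ (u m)).length → P m → P (a m + j)) : ∀ N, P N := by
  have key : ∀ n : ℕ, ∀ N : ℤ, N.natAbs = n → P N := by
    intro n
    induction n using Nat.strong_induction_on with
    | _ n ih =>
      intro N hN
      by_cases e0 : N = 0
      · rw [e0]; exact h0
      by_cases e1 : N = -1
      · rw [e1]; exact h1
      obtain ⟨m, j, hj, hm⟩ := h.exists_block σ₀_ne N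
      rw [hm]
      apply hs m j hj
      apply ih m.natAbs _ m rfl
      have hmono := (h.mono σ₀_ne).monotone
      have h4 := h.succ m
      rcases lt_or_gt_of_ne e0 with hneg | hpos
      · -- N ≤ -2
        have hm0 : m < 0 := by
          by_contra hcon
          push Not at hcon
          have := hmono hcon
          rw [h.zero] at this
          omega
        rcases eq_or_lt_of_le (show m ≤ -1 by omega) with hm1 | hm1
        · omega
        · have := a_le h (m+1) (by omega)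
          omega
      · have hm0 : 0 ≤ m := by
          by_contra hcon
          push Not at hcon
          have := hmono (show m + 1 ≤ 0 by omega)
          rw [h.zero] at this
          omega
        rcases eq_or_lt_of_le hm0 with hm1 | hm1
        · omega
        · have := a_ge h m (by omega)
          omega
  exact fun N => key _ N rfl

/-- the coordinate of the broken line -/
noncomputable def g (u : ℤ → Fin 3) (x : ℝ) (n : ℤ) : ℝ := S (fun i => yv x (u i)) n

theorem g_zero (x : ℝ) : g u x 0 = 0 := S_zero _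

theorem g_neg_one (h : Fixed σ₀ u a) (x : ℝ) : g u x (-1) = x := by
  have h1 := S_succ (fun i => yv x (u i)) (-1)
  rw [show (-1:ℤ) + 1 = 0 by norm_num, S_zero, u_neg_one h] at h1
  have h2 : yv x 1 = -x := by simp [yv]
  rw [h2] at h1
  unfold g
  linarith

theorem g_block (h : Fixed σ₀ u a) {x : ℝ} (hx : x ^ 3 = 2 * x ^ 2 + x - 1) (m : ℤ) (j : ℕ)
    (hj : j < (σ₀ (u m)).length) :
    g u x (a m + j) = x * g u x m + (((σ₀ (u m)).take j).map (yv x)).sum :=
  h.S_block (yv_eig hx) m j hj.le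

theorem g_nonneg (h : Fixed σ₀ u a) {b : ℝ} (hb : b ^ 3 = 2 * b ^ 2 + b - 1) (hb0 : 0 < b)
    (hb1 : b < 1) (N : ℤ) : 0 ≤ g u b N := by
  revert N
  refine ind h (P := fun N => 0 ≤ g u b N) ?_ ?_ ?_
  · rw [g_zero]
  · rw [g_neg_one h]; exact hb0.le
  · intro m j hj ih
    rw [g_block h hb m j hj]
    have : 0 ≤ (((σ₀ (u m)).take j).map (yv b)).sum := by
      rcases prefix_val (u m) j hj with h1 | ⟨h1, h2⟩ | ⟨h1, h2⟩
      · rw [h1]; simp
      · rw [h2]; nlinarith
      · rw [h2]; nlinarith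
    positivity

theorem g_bdd (h : Fixed σ₀ u a) {x : ℝ} (hx : x ^ 3 = 2 * x ^ 2 + x - 1) (hx1 : |x| < 1) (N : ℤ) :
    |g u x N| ≤ 2 / (1 - |x|) := by
  have hx0 := abs_nonneg x
  have hC : 2 ≤ 2 / (1 - |x|) := by
    rw [le_div_iff₀ (by linarith)]
    linarith
  revert N
  refine ind h (P := fun N => |g u x N| ≤ 2 / (1 - |x|)) ?_ ?_ ?_
  · rw [g_zero, abs_zero]; linarith
  · rw [g_neg_one h]; linarith
  · intro m j hj ih
    rw [g_block h hx m j hj]
    have h3 : |(((σ₀ (u m)).take j).map (yv x)).sum| ≤ 2 := by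
      have h4 := abs_lt.1 hx1
      rcases prefix_val (u m) j hj with h1 | ⟨h1, h2⟩ | ⟨h1, h2⟩
      · rw [h1]; simp
      · rw [h2, abs_le]; constructor <;> nlinarith
      · rw [h2, abs_le]; constructor <;> nlinarith
    calc _ ≤ |x * g u x m| + 2 := (abs_add_le _ _).trans (by linarith)
      _ = |x| * |g u x m| + 2 := by rw [abs_mul]
      _ ≤ |x| * (2 / (1 - |x|)) + 2 := by
        have := mul_le_mul_of_nonneg_left ih hx0
        linarith
      _ = 2 / (1 - |x|) := by
        have : 1 - |x| ≠ 0 := by linarith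
        field_simp
        ring

/-- the intervals `J_1 = [0,b]`, `J_2 = [b,1]`, `J_3 = [b(1-b),b]` -/
def J (b : ℝ) : Fin 3 → Set ℝ := ![Set.Icc 0 b, Set.Icc b 1, Set.Icc (b - b ^ 2) b]

theorem occurs (h : Fixed σ₀ u a) (i : Fin 3) (N : ℤ) (hN : 1 ≤ N) : ∃ n, N ≤ n ∧ u n = i := by
  -- letter `0` occurs at every position `a m`
  have h0 : ∀ m, u (a m) = 0 := by
    intro m
    have h1 := h.get m 0 (List.length_pos_iff.2 (σ₀_ne _))
    simp only [Nat.cast_zero, add_zero] at h1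
    rw [h1]
    generalize u m = i
    revert i
    decide
  have h1 := a_ge h N hN
  have h2 := a_ge h (a N) (by omega)
  have hl : (σ₀ (u (a N))).length = 3 := by rw [h0]; rfl
  fin_cases i
  · exact ⟨a N, by omega, h0 N⟩
  · refine ⟨a (a N) + (2:ℕ), by omega, ?_⟩
    rw [h.get (a N) 2 (by omega)]
    simp [h0, σ₀]
  · refine ⟨a (a N) + (1:ℕ), by omega, ?_⟩
    rw [h.get (a N) 1 (by omega)]
    simp [h0, σ₀]

theorem J_step {b : ℝ} (hb1 : 1/2 < b) (hb2 : b < 1) (j : Fin 3) (t : ℝ) (ht : t ∈ J b j) :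
    ∃ (i : Fin 3) (q : ℕ) (hq : q < (σ₀ i).length) (t' : ℝ), (σ₀ i)[q] = j ∧ t' ∈ J b i ∧
      t = b * t' + (((σ₀ i).take q).map (yv b)).sum := by
  have hb0 : 0 < b := by linarith
  fin_cases j
  · -- j = 0: empty prefix, i = 0 or 1
    simp only [J, Fin.zero_eta, Matrix.cons_val_zero, Set.mem_Icc] at ht
    rcases le_total (t / b) b with h1 | h1
    · refine ⟨0, 0, by decide, t / b, rfl, ?_, ?_⟩
      · simp only [J, Matrix.cons_val_zero, Set.mem_Icc]
        exact ⟨div_nonneg ht.1 hb0.le, h1⟩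
      · simp; field_simp
    · refine ⟨1, 0, by decide, t / b, rfl, ?_, ?_⟩
      · simp only [J, Matrix.cons_val_one, Matrix.cons_val_zero, Set.mem_Icc]
        refine ⟨h1, ?_⟩
        rw [div_le_one hb0]; exact ht.2
      · simp; field_simp
  · simp only [J, Fin.mk_one, Matrix.cons_val_one, Matrix.cons_val_zero, Set.mem_Icc] at ht
    rcases le_total (1 - b ^ 2) t with h1 | h1
    · refine ⟨0, 2, by decide, (t - 1 + b ^ 2) / b, rfl, ?_, ?_⟩
      · simp only [J, Matrix.cons_val_zero, Set.mem_Icc]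
        refine ⟨div_nonneg (by linarith) hb0.le, ?_⟩
        rw [div_le_iff₀ hb0]
        nlinarith
      · simp [σ₀, yv]; field_simp; ring
    · refine ⟨1, 1, by decide, (t - (b - b ^ 2)) / b, rfl, ?_, ?_⟩
      · simp only [J, Matrix.cons_val_one, Matrix.cons_val_zero, Set.mem_Icc]
        rw [div_le_iff₀ hb0, le_div_iff₀ hb0]
        constructor <;> nlinarith
      · simp [σ₀, yv]; field_simp; ring
  · simp only [J, Fin.reduceFinMk, Matrix.cons_val, Set.mem_Icc] at ht
    refine ⟨0, 1, by decide, (t - (b - b ^ 2)) / b, rfl, ?_, ?_⟩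
    · simp only [J, Matrix.cons_val_zero, Set.mem_Icc]
      rw [div_le_iff₀ hb0, le_div_iff₀ hb0]
      constructor <;> nlinarith
    · simp [σ₀, yv]; field_simp; ring

theorem dense_step (h : Fixed σ₀ u a) {b : ℝ} (hb : b ^ 3 = 2 * b ^ 2 + b - 1) (hb1 : 1/2 < b)
    (hb2 : b < 1) (N : ℕ) : ∀ (j : Fin 3) (t : ℝ), t ∈ J b j →
      ∃ n, 1 ≤ n ∧ u n = j ∧ |t - g u b n| ≤ b ^ N * (1 + 2 / (1 - |b|)) := by
  have hb0 : 0 < b := by linarith
  induction N with
  | zero =>
    intro j t ht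
    obtain ⟨n, hn, hj⟩ := occurs h j 1 le_rfl
    refine ⟨n, hn, hj, ?_⟩
    have h1 := g_bdd h hb (by rw [abs_of_pos hb0]; exact hb2) n
    have h2 : |t| ≤ 1 := by
      rw [abs_le]
      fin_cases j
      · simp only [J, Fin.zero_eta, Matrix.cons_val_zero, Set.mem_Icc] at ht
        constructor <;> linarith
      · simp only [J, Fin.mk_one, Matrix.cons_val_one, Matrix.cons_val_zero, Set.mem_Icc] at ht
        constructor <;> linarith
      · simp only [J, Fin.reduceFinMk, Matrix.cons_val, Set.mem_Icc] at ht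
        constructor <;> nlinarith
    rw [pow_zero, one_mul]
    exact (abs_sub _ _).trans (by linarith)
  | succ N ih =>
    intro j t ht
    obtain ⟨i, q, hq, t', h1, h2, h3⟩ := J_step hb1 hb2 j t ht
    obtain ⟨m, hm, hi, hm2⟩ := ih i t' h2
    subst hi
    refine ⟨a m + q, ?_, ?_, ?_⟩
    · have := a_ge h m hm
      omega
    · rw [h.get m q hq, h1]
    · rw [g_block h hb m q hq, h3]
      rw [show b * t' + (((σ₀ (u m)).take q).map (yv b)).sum -
        (b * g u b m + (((σ₀ (u m)).take q).map (yv b)).sum) = b * (t' - g u b m) by ring,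
        abs_mul, pow_succ]
      have hbb : |b| = b := abs_of_pos hb0
      calc |b| * |t' - g u b m| ≤ |b| * (b ^ N * (1 + 2 / (1 - |b|))) :=
            mul_le_mul_of_nonneg_left hm2 (abs_nonneg b)
        _ = b * (b ^ N * (1 + 2 / (1 - |b|))) := by rw [hbb]
        _ = _ := by ring

theorem dense01 (h : Fixed σ₀ u a) {b : ℝ} (hb : b ^ 3 = 2 * b ^ 2 + b - 1) (hb1 : 1/2 < b)
    (hb2 : b < 1) (t : ℝ) (ht : t ∈ Set.Icc (0:ℝ) 1) :
    ∀ ε > 0, ∃ n, 1 ≤ n ∧ |t - g u b n| < ε := by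
  intro ε hε
  have hb0 : 0 < b := by linarith
  have hlim : Filter.Tendsto (fun N : ℕ => b ^ N * (1 + 2 / (1 - |b|))) Filter.atTop (nhds 0) := by
    have := (tendsto_pow_atTop_nhds_zero_of_lt_one hb0.le hb2).mul_const (1 + 2 / (1 - |b|))
    simpa using this
  obtain ⟨N, hN⟩ := (hlim.eventually (gt_mem_nhds hε)).exists
  obtain ⟨j, hj⟩ : ∃ j, t ∈ J b j := by
    rcases le_total t b with h1 | h1
    · exact ⟨0, by simpa [J] using ⟨ht.1, h1⟩⟩
    · exact ⟨1, by simpa [J] using ⟨h1, ht.2⟩⟩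
  obtain ⟨n, h1, -, h2⟩ := dense_step h hb hb1 hb2 N j t hj
  exact ⟨n, h1, h2.trans_lt hN⟩

/-- the closure of the broken line in coordinates -/
noncomputable def T (u : ℤ → Fin 3) (b d : ℝ) : Set (ℝ × ℝ) :=
  closure (Set.range fun n : ℤ => (g u b n, g u d n))

theorem T_compact (h : Fixed σ₀ u a) {b d : ℝ} (hb : b ^ 3 = 2 * b ^ 2 + b - 1) (hb1 : |b| < 1)
    (hd : d ^ 3 = 2 * d ^ 2 + d - 1) (hd1 : |d| < 1) : IsCompact (T u b d) := by
  apply Metric.isCompact_of_isClosed_isBounded isClosed_closure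
  apply Bornology.IsBounded.closure
  apply (Metric.isBounded_closedBall (x := (0:ℝ × ℝ))
    (r := max (2 / (1 - |b|)) (2 / (1 - |d|)))).subset
  rintro _ ⟨n, rfl⟩
  rw [mem_closedBall_zero_iff, Prod.norm_def]
  exact max_le_max (g_bdd h hb hb1 n) (g_bdd h hd hd1 n)

theorem T_nonneg (h : Fixed σ₀ u a) {b d : ℝ} (hb : b ^ 3 = 2 * b ^ 2 + b - 1) (hb0 : 0 < b)
    (hb1 : b < 1) : ∀ q ∈ T u b d, 0 ≤ q.1 := by
  have : T u b d ⊆ {q | 0 ≤ q.1} := by
    apply closure_minimal _ (isClosed_le continuous_const continuous_fst)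
    rintro _ ⟨n, rfl⟩
    exact g_nonneg h hb hb0 hb1 n
  exact this

theorem T_sub (h : Fixed σ₀ u a) {b d : ℝ} (hb : b ^ 3 = 2 * b ^ 2 + b - 1) (hb1 : |b| < 1)
    (hd : d ^ 3 = 2 * d ^ 2 + d - 1) (hd1 : |d| < 1) :
    ∀ r ∈ T u b d, ∃ q ∈ T u b d, ∃ p ∈ ({(0, 0), (b - b ^ 2, d - d ^ 2), (1 - b ^ 2, 1 - d ^ 2)} :
      Set (ℝ × ℝ)), r = (b * q.1 + p.1, d * q.2 + p.2) := by
  set F : Set (ℝ × ℝ) := {(0, 0), (b - b ^ 2, d - d ^ 2), (1 - b ^ 2, 1 - d ^ 2)} with hF
  have hcomp : IsCompact ((fun z : (ℝ × ℝ) × (ℝ × ℝ) =>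
      (b * z.1.1 + z.2.1, d * z.1.2 + z.2.2)) '' (T u b d ×ˢ F)) := by
    apply IsCompact.image
    · apply (T_compact h hb hb1 hd hd1).prod
      apply Set.Finite.isCompact
      rw [hF]
      exact Set.toFinite _
    · fun_prop
  have hsub : T u b d ⊆ ((fun z : (ℝ × ℝ) × (ℝ × ℝ) =>
      (b * z.1.1 + z.2.1, d * z.1.2 + z.2.2)) '' (T u b d ×ˢ F)) := by
    apply closure_minimal _ hcomp.isClosed
    rintro _ ⟨N, rfl⟩
    obtain ⟨m, j, hj, hm⟩ := h.exists_block σ₀_ne N
    subst hm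
    simp only
    rw [g_block h hb m j hj, g_block h hd m j hj]
    refine ⟨((g u b m, g u d m), ((((σ₀ (u m)).take j).map (yv b)).sum,
      (((σ₀ (u m)).take j).map (yv d)).sum)), ⟨subset_closure ⟨m, rfl⟩, ?_⟩, rfl⟩
    simp only [hF, Set.mem_insert_iff, Set.mem_singleton_iff, Prod.mk.injEq]
    rcases prefix_val (u m) j hj with h1 | ⟨h1, h2⟩ | ⟨h1, h2⟩
    · left; rw [h1]; simp
    · right; left; exact ⟨h2 b, h2 d⟩
    · right; right; exact ⟨h2 b, h2 d⟩
  intro r hr
  obtain ⟨z, ⟨h1, h2⟩, h3⟩ := hsub hr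
  exact ⟨z.1, h1, z.2, h2, h3.symm⟩

/-- only the origin lies on the line `Y = 0` -/
theorem T_axis (h : Fixed σ₀ u a) {b d : ℝ} (hb : b ^ 3 = 2 * b ^ 2 + b - 1) (hb0 : 0 < b)
    (hb1 : b < 1) (hd : d ^ 3 = 2 * d ^ 2 + d - 1) (hd1 : |d| < 1) (z : ℝ)
    (hz : ((0:ℝ), z) ∈ T u b d) : z = 0 := by
  have hb1' : |b| < 1 := by rw [abs_of_pos hb0]; exact hb1
  set K : Set (ℝ × ℝ) := T u b d ∩ {q | q.1 = 0} with hK
  have hKc : IsCompact K := (T_compact h hb hb1' hd hd1).inter_right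
    (isClosed_eq continuous_fst continuous_const)
  obtain ⟨q, hq, hmax⟩ := hKc.exists_isMaxOn ⟨(0, z), hz, rfl⟩
    (show ContinuousOn (fun q : ℝ × ℝ => |q.2|) K by fun_prop)
  -- every point of K is the image of a point of K
  have hstep : ∀ q ∈ K, ∃ q' ∈ K, q.2 = d * q'.2 := by
    rintro q ⟨hq1, hq2⟩
    obtain ⟨q', hq', p, hp, he⟩ := T_sub h hb hb1' hd hd1 q hq1
    have h1 : q.1 = b * q'.1 + p.1 := by rw [he]
    have h2 : q.2 = d * q'.2 + p.2 := by rw [he]
    rw [Set.mem_setOf_eq] at hq2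
    have h3 := T_nonneg h hb hb0 hb1 q' hq'
    have h4 : 0 ≤ b * q'.1 := by positivity
    simp only [Set.mem_insert_iff, Set.mem_singleton_iff] at hp
    rcases hp with rfl | rfl | rfl
    · simp only [add_zero] at h1 h2
      refine ⟨q', ⟨hq', ?_⟩, h2⟩
      have : b * q'.1 = 0 := by linarith
      rcases mul_eq_zero.1 this with h5 | h5
      · linarith
      · exact h5
    · simp only at h1
      nlinarith
    · simp only at h1
      nlinarith
  obtain ⟨q', hq', he⟩ := hstep q hq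
  have h1 : |q'.2| ≤ |q.2| := hmax hq'
  have h2 : |q.2| = |d| * |q'.2| := by rw [he, abs_mul]
  have h3 : |q.2| = 0 := by
    have h4 := abs_nonneg q.2
    have h5 := abs_nonneg d
    nlinarith [abs_nonneg q'.2, mul_le_mul_of_nonneg_left h1 h5]
  have h4 : |z| ≤ |q.2| := hmax (show ((0:ℝ), z) ∈ K from ⟨hz, rfl⟩)
  rw [h3] at h4
  exact abs_nonpos_iff.1 h4

/-- `0` is a limit of vertices with positive index -/
theorem zero_limit (h : Fixed σ₀ u a) {b d : ℝ} (hb : b ^ 3 = 2 * b ^ 2 + b - 1) (hb1 : |b| < 1)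
    (hd : d ^ 3 = 2 * d ^ 2 + d - 1) (hd1 : |d| < 1) :
    ∃ s : ℕ → ℤ, (∀ n, 2 ≤ s n) ∧
      Filter.Tendsto (fun n => (g u b (s n), g u d (s n))) Filter.atTop (nhds (0, 0)) := by
  refine ⟨fun n => a^[n] 2, ?_, ?_⟩
  · intro n
    induction n with
    | zero => simp
    | succ n ih =>
      simp only [Function.iterate_succ_apply'] at ih ⊢
      have := a_ge h (a^[n] 2) (by omega)
      omega
  · have hx : ∀ x : ℝ, x ^ 3 = 2 * x ^ 2 + x - 1 → |x| < 1 →
        Filter.Tendsto (fun n => g u x (a^[n] 2)) Filter.atTop (nhds 0) := by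
      intro x hx hx1
      have h1 : ∀ n : ℕ, g u x (a^[n] 2) = x ^ n * g u x 2 := by
        intro n
        induction n with
        | zero => simp
        | succ n ih =>
          rw [Function.iterate_succ_apply']
          have := h.S_pos (yv_eig hx) (a^[n] 2)
          unfold g at ih ⊢
          rw [this, ih]
          ring
      simp_rw [h1]
      have := (tendsto_pow_atTop_nhds_zero_of_abs_lt_one hx1).mul_const (g u x 2)
      simpa using this
    exact (hx b hb hb1).prodMk_nhds (hx d hd hd1)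

end Pool.Agent.R441.RZ
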