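import Pool.Agent.R441.RZ.Words

/-!
# Existence of two-sided fixed points
-/

namespace Pool.Agent.R441.RZ

variable {k : ℕ}

/-- the substitution on words -/
def app (σ : Subst k) (l : List (Fin k)) : List (Fin k) := l.flatMap σ

theorem app_append (σ : Subst k) (l l' : List (Fin k)) : app σ (l ++ l') = app σ l ++ app σ l' := by
  simp [app]

/-- iterates of a letter -/
def W (σ : Subst k) (i : Fin k) (n : ℕ) : List (Fin k) := (app σ)^[n] [i]

theorem W_succ (σ : Subst k) (i : Fin k) (n : ℕ) : W σ i (n+1) = app σ (W σ i n) := by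
  simp only [W]
  rw [Function.iterate_succ_apply']

theorem prefix_app {σ : Subst k} {l l' : List (Fin k)} (h : l <+: l') : app σ l <+: app σ l' := by
  obtain ⟨t, rfl⟩ := h
  rw [app_append]
  exact List.prefix_append _ _

theorem length_app_ge {σ : Subst k} (hne : ∀ i, σ i ≠ []) (l : List (Fin k)) :
    l.length ≤ (app σ l).length := by
  induction l with
  | nil => simp
  | cons x l ih =>
    simp only [app, List.flatMap_cons, List.length_append, List.length_cons] at ih ⊢
    have := List.length_pos_iff.2 (hne x)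
    omega

/-- condition for a one-sided fixed point starting with `i` -/
structure Start (σ : Subst k) (i : Fin k) : Prop where
  ne : ∀ i, σ i ≠ []
  ex : ∃ t, t ≠ [] ∧ σ i = i :: t

theorem W_prefix {σ : Subst k} {i : Fin k} (h : Start σ i) (n : ℕ) : W σ i n <+: W σ i (n+1) := by
  induction n with
  | zero =>
    rw [W_succ]
    obtain ⟨t, ht, h2⟩ := h.ex
    simp only [W, Function.iterate_zero, id, app, List.flatMap_cons, List.flatMap_nil,
      List.append_nil, h2]
    exact ⟨t, rfl⟩
  | succ n ih =>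
    rw [W_succ, W_succ σ i (n+1)]
    exact prefix_app ih

theorem W_prefix_le {σ : Subst k} {i : Fin k} (h : Start σ i) {m n : ℕ} (hmn : m ≤ n) :
    W σ i m <+: W σ i n := by
  induction n, hmn using Nat.le_induction with
  | base => exact List.prefix_rfl
  | succ n hn ih => exact ih.trans (W_prefix h n)

theorem W_length {σ : Subst k} {i : Fin k} (h : Start σ i) (n : ℕ) : n + 1 ≤ (W σ i n).length := by
  induction n with
  | zero => simp [W]
  | succ n ih =>
    rw [W_succ]
    obtain ⟨t, ht, h2⟩ := h.ex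
    obtain ⟨s, hs⟩ := W_prefix_le h (Nat.zero_le n)
    rw [← hs, app_append, List.length_append]
    have h3 : W σ i 0 = [i] := rfl
    have h4 := length_app_ge h.ne s
    have h5 : (W σ i n).length = 1 + s.length := by rw [← hs, List.length_append, h3]; simp
    have h6 : (app σ (W σ i 0)).length = t.length + 1 := by
      rw [h3]; simp [app, h2]
    have h7 := List.length_pos_iff.2 ht
    omega

/-- the one-sided infinite word -/
def w (σ : Subst k) (i : Fin k) (n : ℕ) : Fin k := (W σ i n).getD n i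

theorem w_eq {σ : Subst k} {i : Fin k} (h : Start σ i) (N j : ℕ) (hj : j < (W σ i N).length) :
    (W σ i N)[j] = w σ i j := by
  unfold w
  have h1 := W_length h j
  rw [List.getD_eq_getElem _ _ (by omega)]
  rcases le_total N j with h2 | h2
  · exact (W_prefix_le h h2).getElem hj
  · exact ((W_prefix_le h h2).getElem (by omega)).symm

/-- positions -/
def pos (σ : Subst k) (i : Fin k) : ℕ → ℕ
  | 0 => 0
  | n + 1 => pos σ i n + (σ (w σ i n)).length

theorem pos_eq {σ : Subst k} {i : Fin k} (h : Start σ i) (N n : ℕ) (hn : n ≤ (W σ i N).length) :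
    pos σ i n = (app σ ((W σ i N).take n)).length := by
  induction n with
  | zero => simp [pos, app]
  | succ n ih =>
    rw [pos, ih (by omega), List.take_succ_eq_append_getElem (by omega), app_append,
      List.length_append, w_eq h N n (by omega)]
    simp [app]

theorem w_pos {σ : Subst k} {i : Fin k} (h : Start σ i) (n j : ℕ)
    (hj : j < (σ (w σ i n)).length) : w σ i (pos σ i n + j) = (σ (w σ i n))[j] := by
  have h1 := W_length h n
  have h2 : W σ i (n+1) = app σ ((W σ i n).take n) ++ (σ (w σ i n) ++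
      app σ ((W σ i n).drop (n+1))) := by
    rw [W_succ]
    conv_lhs => rw [← List.take_append_drop n (W σ i n), List.drop_eq_getElem_cons (by omega)]
    rw [app_append, w_eq h n n (by omega)]
    simp [app]
  have h3 := pos_eq h n n (by omega)
  have h4 : pos σ i n + j < (W σ i (n+1)).length := by
    rw [h2, List.length_append, List.length_append, ← h3]
    omega
  rw [← w_eq h (n+1) _ h4]
  simp only [h2]
  rw [List.getElem_append_right (by omega)]
  rw [List.getElem_append_left (by omega)]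
  congr 1
  omega

def uu (σ : Subst k) (i i' : Fin k) (n : ℤ) : Fin k :=
  if 0 ≤ n then w σ i n.toNat else w (rev σ) i' (-n-1).toNat

def aa (σ : Subst k) (i i' : Fin k) (n : ℤ) : ℤ :=
  if 0 ≤ n then pos σ i n.toNat else -pos (rev σ) i' (-n).toNat

theorem uu_pos (σ : Subst k) (i i' : Fin k) (m : ℕ) : uu σ i i' (m : ℤ) = w σ i m := by
  unfold uu
  rw [if_pos (by omega), Int.toNat_natCast]

theorem uu_neg (σ : Subst k) (i i' : Fin k) (m : ℕ) : uu σ i i' (-(m : ℤ) - 1) = w (rev σ) i' m := by
  unfold uu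
  rw [if_neg (by omega), show (-(-(m : ℤ) - 1) - 1) = (m:ℤ) by ring, Int.toNat_natCast]

theorem aa_pos (σ : Subst k) (i i' : Fin k) (m : ℕ) : aa σ i i' (m : ℤ) = pos σ i m := by
  unfold aa
  rw [if_pos (by omega), Int.toNat_natCast]

theorem aa_neg (σ : Subst k) (i i' : Fin k) (m : ℕ) : aa σ i i' (-(m : ℤ)) = -pos (rev σ) i' m := by
  unfold aa
  rcases Nat.eq_zero_or_pos m with hm | hm
  · subst hm; simp [pos]
  · rw [if_neg (by omega), neg_neg, Int.toNat_natCast]

theorem exists_fixed {σ : Subst k} {i i' : Fin k} (h : Start σ i) (h' : Start (rev σ) i') :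
    ∃ u : ℤ → Fin k, TwoSidedFixed σ u ∧ u 0 = i ∧ u (-1) = i' := by
  have hw0 : w σ i 0 = i := by simp [w, W]
  have hw0' : w (rev σ) i' 0 = i' := by simp [w, W]
  refine ⟨uu σ i i', ⟨aa σ i i', ?_, ?_, ?_⟩, ?_, ?_⟩
  · simpa [pos] using aa_pos σ i i' 0
  · intro n
    rcases lt_or_ge n 0 with hn | hn
    · obtain ⟨m, rfl⟩ : ∃ m : ℕ, n = -(m:ℤ) - 1 := ⟨(-n-1).toNat, by omega⟩
      rw [uu_neg, show -(m:ℤ) - 1 + 1 = -(m:ℤ) by ring, aa_neg,
        show -(m:ℤ) - 1 = -((m+1 : ℕ):ℤ) by push_cast; ring, aa_neg, pos]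
      simp only [rev, List.length_reverse]
      push_cast
      ring
    · obtain ⟨m, rfl⟩ : ∃ m : ℕ, n = (m:ℤ) := ⟨n.toNat, by omega⟩
      rw [uu_pos, aa_pos, show (m:ℤ) + 1 = ((m+1 : ℕ):ℤ) by push_cast; ring, aa_pos, pos]
      push_cast
      ring
  · intro n j hj
    rcases lt_or_ge n 0 with hn | hn
    · obtain ⟨m, rfl⟩ : ∃ m : ℕ, n = -(m:ℤ) - 1 := ⟨(-n-1).toNat, by omega⟩
      have e0 : aa σ i i' (-(m:ℤ) - 1) = -(pos (rev σ) i' (m+1) : ℕ) := by
        rw [show -(m:ℤ) - 1 = -((m+1 : ℕ):ℤ) by push_cast; ring, aa_neg]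
      simp only [uu_neg] at hj ⊢
      have e3 : ((rev σ) (w (rev σ) i' m)).length = (σ (w (rev σ) i' m)).length := by
        simp [rev]
      have hj' : (σ (w (rev σ) i' m)).length - 1 - j < ((rev σ) (w (rev σ) i' m)).length := by omega
      rw [e0, show -((pos (rev σ) i' (m+1) : ℕ):ℤ) + (j:ℤ) =
        -((pos (rev σ) i' m + ((σ (w (rev σ) i' m)).length - 1 - j) : ℕ) : ℤ) - 1 by
          rw [pos, e3]; omega, uu_neg, w_pos h' m _ hj']
      simp only [rev, List.getElem_reverse]
      congr 1
      omega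
    · obtain ⟨m, rfl⟩ : ∃ m : ℕ, n = (m:ℤ) := ⟨n.toNat, by omega⟩
      simp only [uu_pos] at hj ⊢
      rw [aa_pos, show ((pos σ i m : ℕ) : ℤ) + (j:ℤ) = ((pos σ i m + j : ℕ) : ℤ) by push_cast; ring,
        uu_pos, w_pos h m _ hj]
  · simpa [hw0] using uu_pos σ i i' 0
  · simpa [hw0'] using uu_neg σ i i' 0

end Pool.Agent.R441.RZ
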