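import Pool.Agent.R441.RZ.Ex

/-!
# The substitution `1 → 132`, `2 → 12`, `3 → 1`: algebra and the planes `E^u`, `E^s`
-/

namespace Pool.Agent.R441.RZ

open Polynomial

/-- being a root of `x^3 - 2x^2 - x + 1` -/
def Rt (x : ℝ) : Prop := x ^ 3 = 2 * x ^ 2 + x - 1

theorem exists_roots : ∃ lam b d : ℝ, (2 < lam ∧ lam < 3) ∧ (1/2 < b ∧ b < 1) ∧ (-1 < d ∧ d < 0) ∧
    Rt lam ∧ Rt b ∧ Rt d := by
  have hc : ∀ s : Set ℝ, ContinuousOn (fun x : ℝ => x ^ 3 - (2 * x ^ 2 + x - 1)) s := by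
    intro s; fun_prop
  obtain ⟨lam, ⟨h1, h2⟩, h3⟩ := intermediate_value_Ioo (show (2:ℝ) ≤ 3 by norm_num)
    (hc (Set.Icc 2 3)) (show (0:ℝ) ∈ Set.Ioo _ _ by constructor <;> norm_num)
  obtain ⟨b, ⟨h4, h5⟩, h6⟩ := intermediate_value_Ioo' (show (1/2:ℝ) ≤ 1 by norm_num)
    (hc (Set.Icc (1/2) 1)) (show (0:ℝ) ∈ Set.Ioo _ _ by constructor <;> norm_num)
  obtain ⟨d, ⟨h7, h8⟩, h9⟩ := intermediate_value_Ioo (show (-1:ℝ) ≤ 0 by norm_num)
    (hc (Set.Icc (-1) 0)) (show (0:ℝ) ∈ Set.Ioo _ _ by constructor <;> norm_num)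
  simp only at h3 h6 h9
  refine ⟨lam, b, d, ⟨h1, h2⟩, ⟨h4, h5⟩, ⟨h7, h8⟩, ?_, ?_, ?_⟩ <;> unfold Rt <;> linarith

/-- the three roots -/
structure Roots (lam b d : ℝ) : Prop where
  l1 : 2 < lam
  l2 : lam < 3
  b1 : 1/2 < b
  b2 : b < 1
  d1 : -1 < d
  d2 : d < 0
  rl : Rt lam
  rb : Rt b
  rd : Rt d

namespace Roots

variable {lam b d : ℝ}

theorem vieta1 (h : Roots lam b d) : lam + b + d = 2 := by
  obtain ⟨l1, l2, b1, b2, d1, d2, rl, rb, rd⟩ := h
  unfold Rt at rl rb rd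
  have h1 : lam ^ 2 + lam * b + b ^ 2 - 2 * (lam + b) - 1 = 0 := by
    have : (lam - b) * (lam ^ 2 + lam * b + b ^ 2 - 2 * (lam + b) - 1) = 0 := by
      linear_combination rl - rb
    exact (mul_eq_zero.1 this).resolve_left (by linarith)
  have h2 : b ^ 2 + b * d + d ^ 2 - 2 * (b + d) - 1 = 0 := by
    have : (b - d) * (b ^ 2 + b * d + d ^ 2 - 2 * (b + d) - 1) = 0 := by
      linear_combination rb - rd
    exact (mul_eq_zero.1 this).resolve_left (by linarith)
  have h3 : (lam - d) * (lam + b + d - 2) = 0 := by linear_combination h1 - h2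
  have := (mul_eq_zero.1 h3).resolve_left (by linarith)
  linarith

theorem vieta2 (h : Roots lam b d) : lam * b + lam * d + b * d = -1 := by
  have hv := h.vieta1
  obtain ⟨l1, l2, b1, b2, d1, d2, rl, rb, rd⟩ := h
  unfold Rt at rl rb rd
  have h1 : lam ^ 2 + lam * b + b ^ 2 - 2 * (lam + b) - 1 = 0 := by
    have : (lam - b) * (lam ^ 2 + lam * b + b ^ 2 - 2 * (lam + b) - 1) = 0 := by
      linear_combination rl - rb
    exact (mul_eq_zero.1 this).resolve_left (by linarith)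
  linear_combination (lam + b) * hv - h1

theorem vieta3 (h : Roots lam b d) : lam * b * d = -1 := by
  have hv := h.vieta1
  have hv2 := h.vieta2
  obtain ⟨l1, l2, b1, b2, d1, d2, rl, rb, rd⟩ := h
  unfold Rt at rl rb rd
  linear_combination rl - lam ^ 2 * hv + lam * hv2

theorem croots (h : Roots lam b d) (z : ℂ) (hz : z ^ 3 - 2 * z ^ 2 - z + 1 = 0) :
    z = lam ∨ z = b ∨ z = d := by
  have hv : (lam : ℂ) + b + d = 2 := by exact_mod_cast h.vieta1
  have hv2 : (lam : ℂ) * b + lam * d + b * d = -1 := by exact_mod_cast h.vieta2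
  have hv3 : (lam : ℂ) * b * d = -1 := by exact_mod_cast h.vieta3
  have : (z - lam) * ((z - b) * (z - d)) = 0 := by
    linear_combination hz - z ^ 2 * hv + z * hv2 - hv3
  rcases mul_eq_zero.1 this with h1 | h1
  · left; exact sub_eq_zero.1 h1
  · rcases mul_eq_zero.1 h1 with h1 | h1
    · right; left; exact sub_eq_zero.1 h1
    · right; right; exact sub_eq_zero.1 h1

end Roots

theorem inc_σ₀ : inc σ₀ = !![1, 1, 1; 1, 1, 0; 1, 0, 0] := by decide

theorem Mr_σ₀ : Mr σ₀ = !![1, 1, 1; 1, 1, 0; 1, 0, 0] := by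
  unfold Mr
  rw [inc_σ₀]
  ext i j
  fin_cases i <;> fin_cases j <;> simp

theorem Mc_σ₀ : Mc σ₀ = !![1, 1, 1; 1, 1, 0; 1, 0, 0] := by
  unfold Mc
  rw [inc_σ₀]
  ext i j
  fin_cases i <;> fin_cases j <;> simp

theorem Mq_σ₀ : (inc σ₀).map (fun x : ℤ => (x : ℚ)) = !![1, 1, 1; 1, 1, 0; 1, 0, 0] := by
  rw [inc_σ₀]
  ext i j
  fin_cases i <;> fin_cases j <;> simp

theorem eval_cp {K : Type*} [Field K] (x : K) :
    ((!![1, 1, 1; 1, 1, 0; 1, 0, 0] : Matrix (Fin 3) (Fin 3) K).charpoly).eval x =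
      x ^ 3 - 2 * x ^ 2 - x + 1 := by
  rw [Matrix.eval_charpoly, Matrix.det_fin_three]
  simp [Matrix.scalar_apply, Matrix.diagonal]
  ring

theorem uip {lam b d : ℝ} (h : Roots lam b d) : UnimodIrredPisot σ₀ lam where
  nonempty := σ₀_ne
  unimodular := by rw [inc_σ₀, Matrix.det_fin_three]; simp
  irred := by
    rw [Mq_σ₀]
    have hmon := Matrix.charpoly_monic (!![1, 1, 1; 1, 1, 0; 1, 0, 0] : Matrix (Fin 3) (Fin 3) ℚ)
    have hdeg := Matrix.charpoly_natDegree_eq_dim
      (!![1, 1, 1; 1, 1, 0; 1, 0, 0] : Matrix (Fin 3) (Fin 3) ℚ)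
    simp only [Fintype.card_fin] at hdeg
    rw [Polynomial.Monic.irreducible_iff_roots_eq_zero_of_degree_le_three hmon (by omega)
      (by omega)]
    rw [Multiset.eq_zero_iff_forall_notMem]
    intro r hr
    have hroot := Polynomial.isRoot_of_mem_roots hr
    rw [IsRoot, eval_cp] at hroot
    -- r is an integer
    have h1 : r.num ^ 3 - 2 * r.num ^ 2 * r.den - r.num * r.den ^ 2 + r.den ^ 3 = 0 := by
      have hd : (r.den : ℚ) ≠ 0 := by exact_mod_cast r.den_ne_zero
      have hr' : r = r.num / r.den := (Rat.num_div_den r).symm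
      rw [hr'] at hroot
      field_simp at hroot
      have : ((r.num ^ 3 - 2 * r.num ^ 2 * r.den - r.num * r.den ^ 2 + r.den ^ 3 : ℤ) : ℚ) = 0 := by
        push_cast
        linarith
      exact_mod_cast this
    have hcop : IsCoprime (r.num) (r.den : ℤ) := by
      rw [Int.isCoprime_iff_gcd_eq_one]
      exact r.reduced
    have h2 : (r.den : ℤ) ∣ r.num ^ 3 := ⟨2 * r.num ^ 2 + r.num * r.den - r.den ^ 2, by
      linear_combination h1⟩
    have h3 : (r.den : ℤ) ∣ 1 := by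
      have := (hcop.symm.pow_right (n := 3))
      exact (this.dvd_of_dvd_mul_left (by simpa using h2))
    have h4 : (r.den : ℤ) = 1 := by
      have := Int.eq_one_of_dvd_one (by positivity) h3
      exact this
    rw [h4] at h1
    have h5 : r.num ∣ 1 := ⟨-(r.num ^ 2 - 2 * r.num - 1), by linear_combination h1⟩
    rcases Int.isUnit_iff.1 (isUnit_of_dvd_one h5) with h6 | h6 <;> rw [h6] at h1 <;> norm_num at h1
  root := by
    rw [Mr_σ₀, IsRoot, eval_cp]
    have := h.rl
    unfold Rt at this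
    linarith
  one_lt := by linarith [h.l1]
  pisot := by
    intro z hz hne
    rw [Mc_σ₀, IsRoot, eval_cp] at hz
    rcases h.croots z hz with rfl | rfl | rfl
    · exact absurd rfl hne
    · rw [Complex.norm_real, Real.norm_eq_abs, abs_lt]
      constructor <;> linarith [h.b1, h.b2]
    · rw [Complex.norm_real, Real.norm_eq_abs, abs_lt]
      constructor <;> linarith [h.d1, h.d2]

/-! ### linear functionals -/

/-- the functional `v ↦ ∑ y_i v_i` -/
noncomputable def Y (x : ℝ) : EuclideanSpace ℝ (Fin 3) →ₗ[ℝ] ℝ where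
  toFun v := yv x 0 * v 0 + yv x 1 * v 1 + yv x 2 * v 2
  map_add' v w := by simp only [PiLp.add_apply]; ring
  map_smul' c v := by simp only [PiLp.smul_apply, smul_eq_mul, RingHom.id_apply]; ring

theorem Y_apply (x : ℝ) (v : EuclideanSpace ℝ (Fin 3)) :
    Y x v = yv x 0 * v 0 + yv x 1 * v 1 + yv x 2 * v 2 := rfl

theorem Y_single (x : ℝ) (i : Fin 3) : Y x (e i) = yv x i := by
  rw [Y_apply, e]
  fin_cases i <;> simp

/-- the eigenvector -/
noncomputable def wv (x : ℝ) : EuclideanSpace ℝ (Fin 3) := WithLp.toLp 2 (yv x)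

theorem wv_apply (x : ℝ) (i : Fin 3) : wv x i = yv x i := rfl

theorem Y_wv_pos (x : ℝ) : 0 < Y x (wv x) := by
  rw [Y_apply, wv_apply, wv_apply, wv_apply]
  simp only [yv, Matrix.cons_val_zero, Matrix.cons_val_one, Matrix.cons_val]
  nlinarith [sq_nonneg (x - x^2), sq_nonneg x, sq_nonneg (1 - x), sq_nonneg (2*x-1)]

theorem toEuclideanLin_apply_coord (v : EuclideanSpace ℝ (Fin 3)) :
    Matrix.toEuclideanLin (Mr σ₀) v 0 = v 0 + v 1 + v 2 ∧
    Matrix.toEuclideanLin (Mr σ₀) v 1 = v 0 + v 1 ∧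
    Matrix.toEuclideanLin (Mr σ₀) v 2 = v 0 := by
  rw [Mr_σ₀]
  refine ⟨?_, ?_, ?_⟩ <;>
    simp [Matrix.toEuclideanLin_apply, Matrix.mulVec, dotProduct, Fin.sum_univ_three]

theorem Y_M {x : ℝ} (hx : Rt x) (v : EuclideanSpace ℝ (Fin 3)) :
    Y x (Matrix.toEuclideanLin (Mr σ₀) v) = x * Y x v := by
  obtain ⟨h0, h1, h2⟩ := toEuclideanLin_apply_coord v
  unfold Rt at hx
  rw [Y_apply, Y_apply, h0, h1, h2]
  simp only [yv, Matrix.cons_val_zero, Matrix.cons_val_one, Matrix.cons_val]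
  linear_combination v 0 * hx

theorem M_wv {x : ℝ} (hx : Rt x) : Matrix.toEuclideanLin (Mr σ₀) (wv x) = x • wv x := by
  obtain ⟨h0, h1, h2⟩ := toEuclideanLin_apply_coord (wv x)
  unfold Rt at hx
  ext i
  fin_cases i
  · simp only [Fin.zero_eta, h0, PiLp.smul_apply, smul_eq_mul, wv_apply, yv, Matrix.cons_val_zero,
      Matrix.cons_val_one, Matrix.cons_val]
    linear_combination hx
  · simp only [Fin.mk_one, h1, PiLp.smul_apply, smul_eq_mul, wv_apply, yv, Matrix.cons_val_zero,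
      Matrix.cons_val_one]
    ring
  · simp only [Fin.reduceFinMk, h2, PiLp.smul_apply, smul_eq_mul, wv_apply, yv,
      Matrix.cons_val_zero, Matrix.cons_val]
    ring

theorem Y_wv {x y : ℝ} (hx : Rt x) (hy : Rt y) (hne : x ≠ y) : Y x (wv y) = 0 := by
  have h1 := Y_M hx (wv y)
  rw [M_wv hy, map_smul, smul_eq_mul] at h1
  have h2 : (y - x) * Y x (wv y) = 0 := by linarith
  exact (mul_eq_zero.1 h2).resolve_left (sub_ne_zero.2 hne.symm)

/-- the three functionals are jointly injective -/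
theorem Y_inj {lam b d : ℝ} (h : Roots lam b d) (v : EuclideanSpace ℝ (Fin 3))
    (h1 : Y lam v = 0) (h2 : Y b v = 0) (h3 : Y d v = 0) : v = 0 := by
  have hl1 := h.l1
  have hb1 := h.b1
  have hb2 := h.b2
  have hd2 := h.d2
  rw [Y_apply] at h1 h2 h3
  simp only [yv, Matrix.cons_val_zero, Matrix.cons_val_one, Matrix.cons_val] at h1 h2 h3
  have h4 : -v 0 * (lam + b) + (v 0 - v 1 - v 2) = 0 := by
    have : (lam - b) * (-v 0 * (lam + b) + (v 0 - v 1 - v 2)) = 0 := by linear_combination h1 - h2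
    exact (mul_eq_zero.1 this).resolve_left (by linarith)
  have h5 : -v 0 * (b + d) + (v 0 - v 1 - v 2) = 0 := by
    have : (b - d) * (-v 0 * (b + d) + (v 0 - v 1 - v 2)) = 0 := by linear_combination h2 - h3
    exact (mul_eq_zero.1 this).resolve_left (by linarith)
  have h6 : v 0 = 0 := by
    have : (lam - d) * v 0 = 0 := by linear_combination h5 - h4
    exact (mul_eq_zero.1 this).resolve_left (by linarith)
  rw [h6] at h5 h1
  have h7 : v 2 = 0 := by
    linear_combination h1 - lam * h5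
  have h8 : v 1 = 0 := by linarith
  ext i
  fin_cases i
  · exact h6
  · exact h8
  · exact h7

/-- decomposition along the eigenvectors -/
theorem decomp {lam b d : ℝ} (h : Roots lam b d) (v : EuclideanSpace ℝ (Fin 3)) :
    v = (Y lam v / Y lam (wv lam)) • wv lam + ((Y b v / Y b (wv b)) • wv b +
      (Y d v / Y d (wv d)) • wv d) := by
  have hlb : lam ≠ b := by have := h.l1; have := h.b2; intro h; linarith
  have hld : lam ≠ d := by have := h.l1; have := h.d2; intro h; linarith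
  have hbd : b ≠ d := by have := h.b1; have := h.d2; intro h; linarith
  have pl := (Y_wv_pos lam).ne'
  have pb := (Y_wv_pos b).ne'
  have pd := (Y_wv_pos d).ne'
  rw [← sub_eq_zero]
  apply Y_inj h
  · simp only [map_sub, map_add, map_smul, smul_eq_mul, Y_wv h.rl h.rb hlb, Y_wv h.rl h.rd hld]
    field_simp
    ring
  · simp only [map_sub, map_add, map_smul, smul_eq_mul, Y_wv h.rb h.rl hlb.symm, Y_wv h.rb h.rd hbd]
    field_simp
    ring
  · simp only [map_sub, map_add, map_smul, smul_eq_mul, Y_wv h.rd h.rl hld.symm,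
      Y_wv h.rd h.rb hbd.symm]
    field_simp
    ring

theorem wv_mem_Eu {lam : ℝ} (hx : Rt lam) : wv lam ∈ Eu σ₀ lam := by
  unfold Eu
  apply Submodule.subset_span
  rw [Set.mem_setOf_eq, Mr_σ₀]
  unfold Rt at hx
  intro i
  fin_cases i
  · simp [wv, yv, Fin.sum_univ_three]
    linear_combination hx
  · simp [wv, yv, Fin.sum_univ_three]
    ring
  · simp [wv, yv, Fin.sum_univ_three]
    ring

theorem Y_Eu {lam x : ℝ} (hx : Rt x) (hne : x ≠ lam) {v : EuclideanSpace ℝ (Fin 3)}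
    (hv : v ∈ Eu σ₀ lam) : Y x v = 0 := by
  have hle : Eu σ₀ lam ≤ LinearMap.ker (Y x) := by
    unfold Eu
    rw [Submodule.span_le]
    intro w hw
    rw [Set.mem_setOf_eq, Mr_σ₀] at hw
    rw [SetLike.mem_coe, LinearMap.mem_ker]
    have h0 := hw 0
    have h1 := hw 1
    have h2 := hw 2
    simp [Fin.sum_univ_three] at h0 h1 h2
    unfold Rt at hx
    have h3 : (lam - x) * Y x w = 0 := by
      rw [Y_apply]
      simp only [yv, Matrix.cons_val_zero, Matrix.cons_val_one, Matrix.cons_val]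
      linear_combination -(x - x ^ 2) * h0 + x * h1 - (1 - x) * h2 + w 0 * hx
    exact (mul_eq_zero.1 h3).resolve_left (sub_ne_zero.2 hne.symm)
  exact hle hv

theorem wv_mem_Es {lam x : ℝ} (hx : Rt x) (hne : x ≠ lam) : wv x ∈ Es σ₀ lam := by
  unfold Es
  apply Submodule.subset_span
  unfold Rt at hx
  have hx' : (x:ℂ)^3 = 2 * x^2 + x - 1 := by exact_mod_cast hx
  refine ⟨{(x:ℂ)}, fun _ i => (yv x i : ℂ), ?_, ?_⟩
  · intro z hz
    rw [Finset.mem_singleton] at hz
    subst hz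
    refine ⟨by exact_mod_cast hne, ?_⟩
    rw [Mc_σ₀]
    intro i
    fin_cases i
    · simp [yv, Fin.sum_univ_three]
      linear_combination hx'
    · simp [yv, Fin.sum_univ_three]
      ring
    · simp [yv, Fin.sum_univ_three]
      ring
  · intro i
    simp [wv]

/-- complex functional -/
noncomputable def YC (x : ℝ) : (Fin 3 → ℂ) →ₗ[ℂ] ℂ where
  toFun v := (yv x 0 : ℂ) * v 0 + (yv x 1 : ℂ) * v 1 + (yv x 2 : ℂ) * v 2
  map_add' v w := by simp only [Pi.add_apply]; ring
  map_smul' c v := by simp only [Pi.smul_apply, smul_eq_mul, RingHom.id_apply]; ring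

theorem Y_Es {lam : ℝ} (hx : Rt lam) {v : EuclideanSpace ℝ (Fin 3)} (hv : v ∈ Es σ₀ lam) :
    Y lam v = 0 := by
  have hle : Es σ₀ lam ≤ LinearMap.ker (Y lam) := by
    unfold Es
    rw [Submodule.span_le]
    rintro v ⟨s, w, h1, h2⟩
    rw [SetLike.mem_coe, LinearMap.mem_ker]
    rw [Mc_σ₀] at h1
    unfold Rt at hx
    have hx' : (lam:ℂ)^3 = 2 * lam^2 + lam - 1 := by exact_mod_cast hx
    have h3 : ∀ z ∈ s, YC lam (w z) = 0 := by
      intro z hz
      obtain ⟨hne, h4⟩ := h1 z hz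
      have e0 := h4 0
      have e1 := h4 1
      have e2 := h4 2
      simp [Fin.sum_univ_three] at e0 e1 e2
      have h5 : (z - lam) * YC lam (w z) = 0 := by
        simp only [YC, yv, Matrix.cons_val_zero, Matrix.cons_val_one, Matrix.cons_val,
          LinearMap.coe_mk, AddHom.coe_mk]
        push_cast
        linear_combination -(lam - lam ^ 2 : ℂ) * e0 + lam * e1 - (1 - lam) * e2 + w z 0 * hx'
      exact (mul_eq_zero.1 h5).resolve_left (sub_ne_zero.2 hne)
    have h6 : ((Y lam v : ℝ) : ℂ) = ∑ z ∈ s, YC lam (w z) := by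
      rw [Y_apply]
      push_cast
      rw [h2 0, h2 1, h2 2, Finset.mul_sum, Finset.mul_sum, Finset.mul_sum,
        ← Finset.sum_add_distrib, ← Finset.sum_add_distrib]
      rfl
    rw [Finset.sum_eq_zero h3] at h6
    exact_mod_cast h6
  exact hle hv

theorem isCompl {lam b d : ℝ} (h : Roots lam b d) : IsCompl (Es σ₀ lam) (Eu σ₀ lam) := by
  have hlb : b ≠ lam := by have := h.l1; have := h.b2; intro h; linarith
  have hld : d ≠ lam := by have := h.l1; have := h.d2; intro h; linarith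
  constructor
  · rw [Submodule.disjoint_def]
    intro v hs hu
    exact Y_inj h v (Y_Es h.rl hs) (Y_Eu h.rb hlb hu) (Y_Eu h.rd hld hu)
  · rw [codisjoint_iff, Submodule.eq_top_iff']
    intro v
    rw [decomp h v, add_comm]
    exact Submodule.add_mem_sup
      (Submodule.add_mem _ (Submodule.smul_mem _ _ (wv_mem_Es h.rb hlb))
        (Submodule.smul_mem _ _ (wv_mem_Es h.rd hld)))
      (Submodule.smul_mem _ _ (wv_mem_Eu h.rl))

end Pool.Agent.R441.RZ
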