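import Pool.Agent.R441.RZ.Geo

/-!
# The substitution `1 → 132`, `2 → 12`, `3 → 1`: the symmetric part of the Rauzy fractal
-/

namespace Pool.Agent.R441.RZ

open Set Filter Topology

variable {lam b d : ℝ}

/-- the closure in `E^s` of the set of projections -/
noncomputable def Rz (hc : IsCompl (Es σ₀ lam) (Eu σ₀ lam)) (u : ℤ → Fin 3) : Set (Es σ₀ lam) :=
  closure (Set.range fun n : ℤ => (Es σ₀ lam).projectionOnto (Eu σ₀ lam) hc (L u n))

/-- coordinates on `E^s` -/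
noncomputable def Phi (lam b d : ℝ) : Es σ₀ lam →ₗ[ℝ] ℝ × ℝ :=
  ((Y b).comp (Es σ₀ lam).subtype).prod ((Y d).comp (Es σ₀ lam).subtype)

theorem Phi_apply (x : Es σ₀ lam) : Phi lam b d x = (Y b x, Y d x) := rfl

theorem Phi_inj (h : Roots lam b d) : Function.Injective (Phi lam b d) := by
  rw [injective_iff_map_eq_zero]
  intro x hx
  rw [Phi_apply, Prod.mk_eq_zero] at hx
  have := Y_inj h x.1 (Y_Es h.rl x.2) hx.1 hx.2
  exact Subtype.ext this

theorem Phi_emb (h : Roots lam b d) : IsClosedEmbedding (Phi lam b d) :=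
  LinearMap.isClosedEmbedding_of_injective (LinearMap.ker_eq_bot.2 (Phi_inj h))

theorem ne_b (h : Roots lam b d) : b ≠ lam := by
  have := h.l1; have := h.b2; intro h; linarith

theorem ne_d (h : Roots lam b d) : d ≠ lam := by
  have := h.l1; have := h.d2; intro h; linarith

theorem ne_bd (h : Roots lam b d) : b ≠ d := by
  have := h.b1; have := h.d2; intro h; linarith

theorem abs_b (h : Roots lam b d) : |b| < 1 := by
  rw [abs_lt]; constructor <;> linarith [h.b1, h.b2]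

theorem abs_d (h : Roots lam b d) : |d| < 1 := by
  rw [abs_lt]; constructor <;> linarith [h.d1, h.d2]

theorem Y_proj {x : ℝ} (hx : Rt x) (hne : x ≠ lam) (hc : IsCompl (Es σ₀ lam) (Eu σ₀ lam))
    (v : EuclideanSpace ℝ (Fin 3)) : Y x ((Es σ₀ lam).projectionOnto (Eu σ₀ lam) hc v) = Y x v := by
  have h1 : v - ((Es σ₀ lam).projectionOnto (Eu σ₀ lam) hc v : EuclideanSpace ℝ (Fin 3)) ∈
      Eu σ₀ lam := by
    rw [← Submodule.projectionOnto_apply_eq_zero_iff hc, map_sub,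
      Submodule.projectionOnto_apply_left, sub_self]
  have h2 := Y_Eu hx hne h1
  rw [map_sub] at h2
  linarith

/-- the vertex in coordinates -/
theorem Y_V (x : ℝ) (u : ℤ → Fin 3) (n : ℤ) :
    Y x (S (fun i => e (u i)) n) = g u x n := by
  have := S_map (Y x).toAddMonoidHom (fun i => e (u i)) n
  simp only [LinearMap.toAddMonoidHom_coe, Y_single] at this
  exact this

theorem Phi_L_pos (h : Roots lam b d) (hc : IsCompl (Es σ₀ lam) (Eu σ₀ lam)) (u : ℤ → Fin 3)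
    (n : ℤ) (hn : 0 ≤ n) : Phi lam b d ((Es σ₀ lam).projectionOnto (Eu σ₀ lam) hc (L u n)) =
      (g u b (n+1), g u d (n+1)) := by
  rw [Phi_apply, Y_proj h.rb (ne_b h), Y_proj h.rd (ne_d h), L_eq_pos u n hn, Y_V, Y_V]

theorem Phi_L_neg (h : Roots lam b d) (hc : IsCompl (Es σ₀ lam) (Eu σ₀ lam)) (u : ℤ → Fin 3)
    (n : ℤ) (hn : n < 0) : Phi lam b d ((Es σ₀ lam).projectionOnto (Eu σ₀ lam) hc (L u n)) =
      (g u b (n-1), g u d (n-1)) := by
  rw [Phi_apply, Y_proj h.rb (ne_b h), Y_proj h.rd (ne_d h), L_eq_neg u n hn, Y_V, Y_V]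

theorem Phi_L (h : Roots lam b d) (hc : IsCompl (Es σ₀ lam) (Eu σ₀ lam)) (u : ℤ → Fin 3)
    (n : ℤ) : ∃ m, Phi lam b d ((Es σ₀ lam).projectionOnto (Eu σ₀ lam) hc (L u n)) =
      (g u b m, g u d m) := by
  rcases lt_or_ge n 0 with hn | hn
  · exact ⟨_, Phi_L_neg h hc u n hn⟩
  · exact ⟨_, Phi_L_pos h hc u n hn⟩

/-- the Rauzy fractal in coordinates -/
theorem Rauzy_sub (h : Roots lam b d) (hc : IsCompl (Es σ₀ lam) (Eu σ₀ lam)) (u : ℤ → Fin 3)
    {x : Es σ₀ lam} (hx : x ∈ Rz hc u) : Phi lam b d x ∈ T u b d := by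
  have hcont : Continuous (Phi lam b d) := (Phi_emb h).continuous
  have h1 : Rz hc u ⊆ Phi lam b d ⁻¹' (T u b d) := by
    apply closure_minimal _ (isClosed_closure.preimage hcont)
    rintro _ ⟨n, rfl⟩
    obtain ⟨m, hm⟩ := Phi_L h hc u n
    rw [mem_preimage, hm]
    exact subset_closure ⟨m, rfl⟩
  exact h1 hx

theorem Rauzy_compact (h : Roots lam b d) (hc : IsCompl (Es σ₀ lam) (Eu σ₀ lam)) {u : ℤ → Fin 3}
    {a : ℤ → ℤ} (hu : Fixed σ₀ u a) : IsCompact (Rz hc u) := by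
  have h1 : IsCompact (Phi lam b d ⁻¹' (T u b d)) :=
    (Phi_emb h).isCompact_preimage (T_compact hu h.rb (abs_b h) h.rd (abs_d h))
  exact h1.of_isClosed_subset isClosed_closure (fun x hx => Rauzy_sub h hc u hx)

/-- the projection of the Rauzy fractal to the first coordinate contains `[0,1]` -/
theorem Rauzy_proj (h : Roots lam b d) (hc : IsCompl (Es σ₀ lam) (Eu σ₀ lam)) {u : ℤ → Fin 3}
    {a : ℤ → ℤ} (hu : Fixed σ₀ u a) (t : ℝ) (ht : t ∈ Icc (0:ℝ) 1) :
    ∃ x ∈ Rz hc u, (Phi lam b d x).1 = t := by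
  have hcont : Continuous (fun x => (Phi lam b d x).1) := continuous_fst.comp (Phi_emb h).continuous
  have h1 : IsCompact ((fun x => (Phi lam b d x).1) '' Rz hc u) :=
    (Rauzy_compact h hc hu).image hcont
  have h2 : t ∈ closure ((fun x => (Phi lam b d x).1) '' Rz hc u) := by
    rw [Metric.mem_closure_iff]
    intro ε hε
    obtain ⟨n, hn, h3⟩ := dense01 hu h.rb h.b1 h.b2 t ht ε hε
    refine ⟨g u b n, ⟨_, subset_closure ⟨n - 1, rfl⟩, ?_⟩, ?_⟩
    · simp only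
      rw [Phi_L_pos h hc u (n-1) (by omega)]
      simp
    · rw [Real.dist_eq]; exact h3
  rw [h1.isClosed.closure_eq] at h2
  obtain ⟨x, hx, hx2⟩ := h2
  exact ⟨x, hx, hx2⟩

/-- the eigenvector for `d` as an element of `E^s` -/
noncomputable def wd (h : Roots lam b d) : Es σ₀ lam := ⟨wv d, wv_mem_Es h.rd (ne_d h)⟩

theorem Phi_wd (h : Roots lam b d) : Phi lam b d (wd h) = (0, Y d (wv d)) := by
  rw [Phi_apply]
  simp only [wd]
  rw [Y_wv h.rb h.rd (ne_bd h)]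

theorem frontier_proj (h : Roots lam b d) (hc : IsCompl (Es σ₀ lam) (Eu σ₀ lam)) {u : ℤ → Fin 3}
    {a : ℤ → ℤ} (hu : Fixed σ₀ u a) (t : ℝ) (ht : t ∈ Icc (0:ℝ) 1) :
    ∃ x ∈ frontier (Rz hc u), (Phi lam b d x).1 = t := by
  have hcont : Continuous (Phi lam b d) := (Phi_emb h).continuous
  have hK : IsCompact (Rz hc u ∩ {x | (Phi lam b d x).1 = t}) :=
    (Rauzy_compact h hc hu).inter_right
      (isClosed_eq (continuous_fst.comp hcont) continuous_const)
  obtain ⟨x0, hx0, hx0'⟩ := Rauzy_proj h hc hu t ht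
  obtain ⟨x, hx, hmax⟩ := hK.exists_isMaxOn ⟨x0, hx0, hx0'⟩
    (show ContinuousOn (fun x => (Phi lam b d x).2) _ from
      (continuous_snd.comp hcont).continuousOn)
  refine ⟨x, ?_, hx.2⟩
  rw [(Rauzy_compact h hc hu).isClosed.frontier_eq]
  refine ⟨hx.1, ?_⟩
  intro hint
  have hc2 : Continuous (fun e : ℝ => x + e • wd h) := by fun_prop
  have h1 : ∀ᶠ e in 𝓝 (0:ℝ), x + e • wd h ∈ interior (Rz hc u) := by
    apply hc2.continuousAt.eventually_mem
    simp only [zero_smul, add_zero]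
    exact isOpen_interior.mem_nhds hint
  obtain ⟨e, he1, he2⟩ := ((h1.filter_mono nhdsWithin_le_nhds).and
    (self_mem_nhdsWithin (s := Ioi (0:ℝ)))).exists
  have h3 : x + e • wd h ∈ Rz hc u ∩ {x | (Phi lam b d x).1 = t} := by
    refine ⟨interior_subset he1, ?_⟩
    rw [mem_setOf_eq, map_add, map_smul, Phi_wd]
    simp only [Prod.smul_mk, smul_eq_mul, mul_zero, Prod.fst_add, add_zero]
    exact hx.2
  have h4 : (Phi lam b d (x + e • wd h)).2 ≤ (Phi lam b d x).2 := hmax h3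
  rw [map_add, map_smul, Phi_wd] at h4
  simp only [Prod.smul_mk, smul_eq_mul, Prod.snd_add] at h4
  have h5 : 0 < e * Y d (wv d) := mul_pos he2 (Y_wv_pos d)
  linarith

theorem one_le_dimH (h : Roots lam b d) (hc : IsCompl (Es σ₀ lam) (Eu σ₀ lam)) {u : ℤ → Fin 3}
    {a : ℤ → ℤ} (hu : Fixed σ₀ u a) : 1 ≤ dimH (frontier (Rz hc u)) := by
  set f : Es σ₀ lam →L[ℝ] ℝ := LinearMap.toContinuousLinearMap
    ((LinearMap.fst ℝ ℝ ℝ).comp (Phi lam b d)) with hf
  have hfa : ∀ x, f x = (Phi lam b d x).1 := fun x => rfl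
  have h1 : dimH (f '' frontier (Rz hc u)) ≤ dimH (frontier (Rz hc u)) :=
    f.lipschitz.dimH_image_le _
  have h2 : Icc (0:ℝ) 1 ⊆ f '' frontier (Rz hc u) := by
    intro t ht
    obtain ⟨x, hx, hx2⟩ := frontier_proj h hc hu t ht
    exact ⟨x, hx, by rw [hfa]; exact hx2⟩
  have h3 : dimH (Icc (0:ℝ) 1) = 1 := by
    have := Real.dimH_of_nonempty_interior (E := ℝ) (s := Icc (0:ℝ) 1)
      (by rw [interior_Icc]; exact ⟨1/2, by norm_num, by norm_num⟩)
    rw [this]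
    simp
  calc (1 : ENNReal) = dimH (Icc (0:ℝ) 1) := h3.symm
    _ ≤ dimH (f '' frontier (Rz hc u)) := dimH_mono h2
    _ ≤ _ := h1

/-- the first coordinate is nonnegative on the Rauzy fractal -/
theorem Rauzy_nonneg (h : Roots lam b d) (hc : IsCompl (Es σ₀ lam) (Eu σ₀ lam)) {u : ℤ → Fin 3}
    {a : ℤ → ℤ} (hu : Fixed σ₀ u a) {x : Es σ₀ lam} (hx : x ∈ Rz hc u) :
    0 ≤ (Phi lam b d x).1 :=
  T_nonneg hu h.rb (by linarith [h.b1]) h.b2 _ (Rauzy_sub h hc u hx)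

theorem rev_rev (σ : Subst 3) : rev (rev σ) = σ := by
  funext i
  simp [rev]

/-- reversal of the sequence: the coordinate -/
theorem g_rev (v : ℤ → Fin 3) (x : ℝ) (n : ℤ) :
    g v x n = -g (fun i => v (-i-1)) x (-n) := by
  have := S_neg (fun i => yv x (v (-i-1))) n
  simp only [show ∀ i : ℤ, -(-i-1)-1 = i by intro i; ring] at this
  exact this

/-- the first coordinate is nonpositive on the reversed Rauzy fractal -/
theorem Rauzy_nonpos (h : Roots lam b d) (hc : IsCompl (Es σ₀ lam) (Eu σ₀ lam)) {v : ℤ → Fin 3}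
    {a : ℤ → ℤ} (hv : Fixed σ₀ (fun i => v (-i-1)) a) {x : Es σ₀ lam} (hx : x ∈ Rz hc v) :
    (Phi lam b d x).1 ≤ 0 := by
  have h1 : T v b d ⊆ {q | q.1 ≤ 0} := by
    apply closure_minimal _ (isClosed_le continuous_fst continuous_const)
    rintro _ ⟨n, rfl⟩
    simp only [mem_setOf_eq]
    rw [g_rev]
    have := g_nonneg hv h.rb (by linarith [h.b1]) h.b2 (-n)
    linarith
  exact h1 (Rauzy_sub h hc v hx)

theorem zero_mem_pos (h : Roots lam b d) (hc : IsCompl (Es σ₀ lam) (Eu σ₀ lam)) {u : ℤ → Fin 3}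
    {a : ℤ → ℤ} (hu : Fixed σ₀ u a) : (0 : Es σ₀ lam) ∈ Rz hc u := by
  obtain ⟨s, hs, hlim⟩ := zero_limit hu h.rb (abs_b h) h.rd (abs_d h)
  have h1 : Tendsto (fun n => (Es σ₀ lam).projectionOnto (Eu σ₀ lam) hc (L u (s n - 1))) atTop
      (𝓝 0) := by
    rw [(Phi_emb h).isInducing.tendsto_nhds_iff, map_zero]
    refine hlim.congr fun n => ?_
    rw [Function.comp_apply, Phi_L_pos h hc u _ (by have := hs n; omega), sub_add_cancel]
  exact mem_closure_of_tendsto h1 (Eventually.of_forall fun n => ⟨_, rfl⟩)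

theorem zero_mem_neg (h : Roots lam b d) (hc : IsCompl (Es σ₀ lam) (Eu σ₀ lam)) {v : ℤ → Fin 3}
    {a : ℤ → ℤ} (hv : Fixed σ₀ (fun i => v (-i-1)) a) : (0 : Es σ₀ lam) ∈ Rz hc v := by
  obtain ⟨s, hs, hlim⟩ := zero_limit hv h.rb (abs_b h) h.rd (abs_d h)
  have h1 : Tendsto (fun n => (Es σ₀ lam).projectionOnto (Eu σ₀ lam) hc (L v (-s n + 1))) atTop
      (𝓝 0) := by
    rw [(Phi_emb h).isInducing.tendsto_nhds_iff, map_zero]
    have hlim' := hlim.neg
    rw [show -((0:ℝ),(0:ℝ)) = (0 : ℝ × ℝ) by simp] at hlim'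
    refine hlim'.congr fun n => ?_
    rw [Function.comp_apply, Phi_L_neg h hc v _ (by have := hs n; omega), add_sub_cancel_right,
      g_rev v b, g_rev v d, neg_neg]
    rfl
  exact mem_closure_of_tendsto h1 (Eventually.of_forall fun n => ⟨_, rfl⟩)

theorem inter_eq (h : Roots lam b d) (hc : IsCompl (Es σ₀ lam) (Eu σ₀ lam)) {u v : ℤ → Fin 3}
    {a a' : ℤ → ℤ} (hu : Fixed σ₀ u a) (hv : Fixed σ₀ (fun i => v (-i-1)) a') :
    Rz hc u ∩ Rz hc v = {0} := by
  apply Subset.antisymm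
  · rintro x ⟨h1, h2⟩
    have h3 : (Phi lam b d x).1 = 0 :=
      le_antisymm (Rauzy_nonpos h hc hv h2) (Rauzy_nonneg h hc hu h1)
    have h4 := Rauzy_sub h hc u h1
    have h5 : ((0:ℝ), (Phi lam b d x).2) ∈ T u b d := by
      rw [← h3]; exact h4
    have h6 := T_axis hu h.rb (by linarith [h.b1]) h.b2 h.rd (abs_d h) _ h5
    rw [mem_singleton_iff]
    apply Phi_inj h
    rw [map_zero]
    exact Prod.ext h3 h6
  · rintro x rfl
    exact ⟨zero_mem_pos h hc hu, zero_mem_neg h hc hv⟩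

/-- existence of two-sided fixed points -/
theorem exists_u : ∃ u, TwoSidedFixed σ₀ u := by
  obtain ⟨u, hu, -, -⟩ := exists_fixed (σ := σ₀) (i := 0) (i' := 1)
    ⟨σ₀_ne, [2, 1], by decide, rfl⟩ ⟨by decide, [0], by decide, rfl⟩
  exact ⟨u, hu⟩

theorem exists_v : ∃ u, TwoSidedFixed (rev σ₀) u := by
  obtain ⟨u, hu⟩ := exists_u
  obtain ⟨a, ha⟩ := twoSidedFixed_iff.1 hu
  exact ⟨_, twoSidedFixed_iff.2 ⟨_, ha.rev⟩⟩

theorem Rauzy_eq (hc : IsCompl (Es σ₀ lam) (Eu σ₀ lam)) (u : ℤ → Fin 3) :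
    Rauzy σ₀ lam u = Subtype.val '' Rz hc u := by
  have hcl : IsClosed (Es σ₀ lam : Set (E 3)) := Submodule.closed_of_finiteDimensional _
  have hemb : IsClosedEmbedding (Subtype.val : Es σ₀ lam → E 3) := hcl.isClosedEmbedding_subtypeVal
  unfold Rauzy Rz
  rw [← hemb.closure_image_eq]
  congr 1
  ext x
  simp only [mem_setOf_eq, mem_image, mem_range, exists_exists_eq_and]
  constructor
  · rintro ⟨hx, n, hn⟩
    refine ⟨n, ?_⟩
    rw [← Submodule.projectionOnto_apply_eq_zero_iff hc, map_sub,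
      Submodule.projectionOnto_apply_of_mem_left hc hx, sub_eq_zero] at hn
    rw [hn]
  · rintro ⟨n, rfl⟩
    refine ⟨Subtype.mem _, n, ?_⟩
    rw [← Submodule.projectionOnto_apply_eq_zero_iff hc, map_sub,
      Submodule.projectionOnto_apply_left, sub_self]

theorem Es_rev (σ : Subst 3) (lam : ℝ) : Es (rev σ) lam = Es σ lam := by
  unfold Es Mc
  rw [inc_rev]

theorem Eu_rev (σ : Subst 3) (lam : ℝ) : Eu (rev σ) lam = Eu σ lam := by
  unfold Eu Mr
  rw [inc_rev]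

theorem Rauzy_rev_eq (σ : Subst 3) (lam : ℝ) (u : ℤ → Fin 3) :
    Rauzy (rev σ) lam u = Rauzy σ lam u := by
  unfold Rauzy
  rw [Es_rev, Eu_rev]

theorem dimBd_eq (A : Set (Es σ₀ lam)) : dimBd σ₀ lam (Subtype.val '' A) = dimH (frontier A) := by
  unfold dimBd
  congr 2
  ext x
  simp

end Pool.Agent.R441.RZ
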