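import Pool.Agent.R441.RZ.Defs

/-!
# Two-sided fixed points: signed sums and desubstitution
-/

namespace Pool.Agent.R441.RZ

variable {k : ℕ}

/-- signed partial sums of a function on `ℤ`: `S 0 = 0`, `S (n+1) = S n + f n`. -/
noncomputable def S {G : Type*} [AddCommGroup G] (f : ℤ → G) (n : ℤ) : G :=
  if 0 ≤ n then ∑ i ∈ Finset.Ico 0 n, f i else -∑ i ∈ Finset.Ico n 0, f i

variable {G : Type*} [AddCommGroup G]

theorem S_zero (f : ℤ → G) : S f 0 = 0 := by simp [S]

theorem S_succ (f : ℤ → G) (n : ℤ) : S f (n + 1) = S f n + f n := by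
  unfold S
  rcases lt_trichotomy n (-1) with h | h | h
  · rw [if_neg (by omega), if_neg (by omega)]
    have : Finset.Ico n 0 = insert n (Finset.Ico (n+1) 0) := by
      ext i; simp only [Finset.mem_Ico, Finset.mem_insert]; omega
    rw [this, Finset.sum_insert (by simp)]
    abel
  · subst h
    rw [if_pos (by norm_num), if_neg (by norm_num)]
    have : Finset.Ico (-1 : ℤ) 0 = {-1} := by
      ext i; simp only [Finset.mem_Ico, Finset.mem_singleton]; omega
    rw [this]
    simp
  · rw [if_pos (by omega), if_pos (by omega)]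
    have : Finset.Ico 0 (n+1) = insert n (Finset.Ico 0 n) := by
      ext i; simp only [Finset.mem_Ico, Finset.mem_insert]; omega
    rw [this, Finset.sum_insert (by simp)]
    abel

/-- uniqueness of functions with given increments -/
theorem eq_of_succ {F F' : ℤ → G} (h0 : F 0 = F' 0)
    (h : ∀ n, F (n + 1) - F n = F' (n + 1) - F' n) : ∀ n, F n = F' n := by
  intro n
  induction n using Int.induction_on with
  | zero => exact h0
  | succ i ih =>
    have := h i
    rw [ih] at this
    exact sub_left_injective this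
  | pred i ih =>
    have := h (-(i:ℤ) - 1)
    rw [show (-(i:ℤ) - 1 + 1) = -(i:ℤ) by ring] at this
    rw [ih] at this
    exact sub_right_injective this

theorem S_map {H : Type*} [AddCommGroup H] (φ : G →+ H) (f : ℤ → G) (n : ℤ) :
    φ (S f n) = S (fun i => φ (f i)) n := by
  revert n
  apply eq_of_succ
  · simp [S_zero]
  · intro n
    rw [S_succ, S_succ]
    simp

theorem S_neg (f : ℤ → G) (n : ℤ) : S (fun i => f (-i-1)) n = -S f (-n) := by
  revert n
  apply eq_of_succ
  · simp [S_zero]
  · intro n
    rw [S_succ]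
    have := S_succ f (-n - 1)
    rw [show -n - 1 + 1 = -n by ring] at this
    rw [show -(n+1) = -n-1 by ring, this]
    abel

/-- the problem's `L` in terms of the signed sums -/
theorem L_eq_pos (u : ℤ → Fin k) (n : ℤ) (hn : 0 ≤ n) :
    L u n = S (fun i => e (u i)) (n + 1) := by
  unfold L S
  rw [if_pos hn, if_pos (by omega)]
  congr 1

theorem L_eq_neg (u : ℤ → Fin k) (n : ℤ) (hn : n < 0) :
    L u n = S (fun i => e (u i)) (n - 1) := by
  unfold L S
  rw [if_neg (by omega), if_neg (by omega)]
  congr 1

/-! ### Positions -/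

/-- the data of a fixed point -/
structure Fixed (σ : Subst k) (u : ℤ → Fin k) (a : ℤ → ℤ) : Prop where
  zero : a 0 = 0
  succ : ∀ n, a (n + 1) = a n + (σ (u n)).length
  get : ∀ n (j : ℕ) (hj : j < (σ (u n)).length), u (a n + j) = (σ (u n))[j]

theorem twoSidedFixed_iff {σ : Subst k} {u : ℤ → Fin k} :
    TwoSidedFixed σ u ↔ ∃ a, Fixed σ u a :=
  ⟨fun ⟨a, h0, h1, h2⟩ => ⟨a, h0, h1, h2⟩, fun ⟨a, h⟩ => ⟨a, h.zero, h.succ, h.get⟩⟩

namespace Fixed

variable {σ : Subst k} {u : ℤ → Fin k} {a : ℤ → ℤ}

/-- Reversal. -/
theorem rev (h : Fixed σ u a) : Fixed (rev σ) (fun n => u (-n-1)) (fun n => -a (-n)) where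
  zero := by simp [h.zero]
  succ n := by
    have := h.succ (-n-1)
    rw [show -n - 1 + 1 = -n by ring] at this
    simp only [RZ.rev, List.length_reverse]
    rw [show -(n+1) = -n-1 by ring]
    linarith
  get n j hj := by
    simp only [RZ.rev, List.length_reverse] at hj ⊢
    rw [List.getElem_reverse]
    have := h.succ (-n-1)
    rw [show -n - 1 + 1 = -n by ring] at this
    rw [← h.get (-n-1) _ (by omega)]
    congr 1
    rw [this]
    omega

theorem mono (hne : ∀ i, σ i ≠ []) (h : Fixed σ u a) : StrictMono a := by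
  apply strictMono_int_of_lt_succ
  intro n
  rw [h.succ]
  have := List.length_pos_iff.2 (hne (u n))
  omega

/-- every integer is in exactly one block -/
theorem exists_block (hne : ∀ i, σ i ≠ []) (h : Fixed σ u a) (N : ℤ) :
    ∃ m, ∃ j : ℕ, j < (σ (u m)).length ∧ N = a m + j := by
  have hm := h.mono hne
  -- the largest m with a m ≤ N
  have hlow : ∀ n : ℤ, n ≤ 0 → a n ≤ n := by
    intro n hn
    induction n, hn using Int.le_induction_down with
    | base => simp [h.zero]
    | pred n hn ih =>
      have := hm (show n - 1 < n by omega)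
      omega
  have hup : ∀ n : ℤ, 0 ≤ n → n ≤ a n := by
    intro n hn
    induction n, hn using Int.le_induction with
    | base => simp [h.zero]
    | succ n hn ih =>
      have := hm (show n < n + 1 by omega)
      omega
  obtain ⟨m, hm1, hm2⟩ := Int.exists_greatest_of_bdd (P := fun m => a m ≤ N)
    ⟨max N 0, by
      intro z hz
      by_contra hcon
      push Not at hcon
      have h1 : 0 ≤ z := by
        have := le_max_right N 0
        omega
      have h2 := hup z h1
      have := le_max_left N 0
      omega⟩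
    ⟨min N 0, by
      have h1 := hlow (min N 0) (min_le_right _ _)
      exact h1.trans (min_le_left _ _)⟩
  have h3 : N < a (m+1) := by
    by_contra hcon
    push Not at hcon
    have := hm2 (m+1) hcon
    omega
  rw [h.succ] at h3
  refine ⟨m, (N - a m).toNat, by omega, by omega⟩

/-- Sum over a prefix of a block. -/
theorem S_prefix (h : Fixed σ u a) (y : Fin k → G) (m : ℤ) (j : ℕ)
    (hj : j ≤ (σ (u m)).length) :
    S (fun i => y (u i)) (a m + j) = S (fun i => y (u i)) (a m) + (((σ (u m)).take j).map y).sum := by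
  induction j with
  | zero => simp
  | succ j ih =>
    have ih' := ih (by omega)
    rw [show a m + ((j + 1 : ℕ) : ℤ) = (a m + j) + 1 by push_cast; ring, S_succ, ih']
    rw [h.get m j (by omega)]
    rw [List.take_succ_eq_append_getElem (by omega), List.map_append, List.sum_append, add_assoc,
      List.map_singleton, List.sum_singleton]

/-- eigenvector relation -/
theorem S_pos {y : Fin k → ℝ} {b : ℝ} (h : Fixed σ u a)
    (hy : ∀ i, ((σ i).map y).sum = b * y i) (m : ℤ) :
    S (fun i => y (u i)) (a m) = b * S (fun i => y (u i)) m := by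
  revert m
  apply eq_of_succ
  · simp [h.zero, S_zero]
  · intro n
    have h1 := h.S_prefix y n (σ (u n)).length le_rfl
    rw [List.take_length, hy] at h1
    rw [h.succ, h1, S_succ]
    ring

theorem S_block {y : Fin k → ℝ} {b : ℝ} (h : Fixed σ u a)
    (hy : ∀ i, ((σ i).map y).sum = b * y i) (m : ℤ) (j : ℕ) (hj : j ≤ (σ (u m)).length) :
    S (fun i => y (u i)) (a m + j) =
      b * S (fun i => y (u i)) m + (((σ (u m)).take j).map y).sum := by
  rw [h.S_prefix y m j hj, h.S_pos hy]

end Fixed

end Pool.Agent.R441.RZ
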